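import Pool.Agent.MP_ebf981_lc.PL.St

namespace Pool.Agent.MP_ebf981_lc.PL

open Finset Pool.Agent.MP_ebf981_lc.LN

theorem zeta_Bell {t ζ : ℝ} (ht : |t| ≤ 1 / 2) (hζ : 0 < ζ) (h : ζ ^ 2 * (1 + t) = 1) :
    (0 ≤ ζ - 1 + t / 2 ∧ ζ - 1 + t / 2 ≤ t ^ 2) ∧ 0 ≤ ζ ^ 2 - 1 + t ∧ ζ ^ 2 - 1 + t ≤ 2 * t ^ 2 := by
  obtain ⟨h1, h2⟩ := abs_le.1 ht
  have hp : 0 < 1 + t := by linarith
  have e : ζ ^ 2 - 1 + t = t ^ 2 * ζ ^ 2 := by linear_combination (1 - t) * h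
  have z2 : ζ ^ 2 ≤ 2 := by nlinarith [sq_nonneg ζ]
  have a1 : (1 - t / 2) ^ 2 ≤ ζ ^ 2 := le_of_mul_le_mul_right (by
    rw [h]; nlinarith [mul_nonneg (sq_nonneg t) (show 0 ≤ 3 - t by linarith)]) hp
  have a2 : ζ ^ 2 ≤ (1 - t / 2 + t ^ 2) ^ 2 := le_of_mul_le_mul_right (by
    have : 0 ≤ 5 / 4 + 5 / 4 * t + t ^ 3 := by nlinarith [mul_nonneg (sq_nonneg t) hp.le]
    rw [h]; nlinarith [mul_nonneg (sq_nonneg t) this]) hp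
  have b1 := (pow_le_pow_iff_left₀ (by linarith) hζ.le two_ne_zero).1 a1
  have b2 := (pow_le_pow_iff_left₀ hζ.le (by nlinarith) two_ne_zero).1 a2
  refine ⟨⟨by linarith, by linarith⟩, by rw [e]; positivity, ?_⟩
  rw [e]
  nlinarith [sq_nonneg t]

theorem point_Bell {u σ b t ζ Y β ϑ : ℝ} (hu : |u| ≤ Y) (s0 : 0 ≤ σ) (s1 : σ ≤ Y) (hY : 1 ≤ Y)
    (hb : |b| ≤ β) (hβ : β ≤ 1) (ht : |t| ≤ ϑ) (hϑ : ϑ ≤ 1 / 2) (hζ : 0 < ζ)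
    (h : ζ ^ 2 * (1 + t) = 1) :
    |(u - σ + b) * ζ + σ * ζ ^ 2 - u| ≤ β + 4 * Y * ϑ ∧
    b - u / 2 * (b ^ 2 + t) - σ / 2 * t + (u ^ 2 - 1) / 2 * (b * t) -
      (3 * Y * ϑ ^ 2 + Y * β * (σ * ϑ / 2 + β * ϑ / 2 + 5 * Y * ϑ ^ 2) + 8 * Y ^ 3 * ϑ ^ 2) ≤
      ((u - σ + b) * ζ + σ * ζ ^ 2 - u) - u * ((u - σ + b) * ζ + σ * ζ ^ 2 - u) ^ 2 / 2 := by
  obtain ⟨⟨z1, z2⟩, z3, z4⟩ := zeta_Bell (ht.trans hϑ) hζ h
  have t0 : 0 ≤ ϑ := (abs_nonneg _).trans ht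
  have b0 : 0 ≤ β := (abs_nonneg _).trans hb
  have t2 : t ^ 2 ≤ ϑ ^ 2 := by rw [← sq_abs]; gcongr
  obtain ⟨e1, he1⟩ : ∃ e1, e1 = ζ - 1 + t / 2 := ⟨_, rfl⟩
  obtain ⟨e2, he2⟩ : ∃ e2, e2 = ζ ^ 2 - 1 + t := ⟨_, rfl⟩
  rw [← he1] at z1 z2
  rw [← he2] at z3 z4
  have c1 : |(u - σ + b) * e1| ≤ 3 * Y * ϑ ^ 2 := by
    rw [abs_mul, abs_of_nonneg z1]
    refine mul_le_mul (abs_le.2 ⟨?_, ?_⟩) (by linarith) z1 (by positivity) <;>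
      linarith [abs_le.1 hu, abs_le.1 hb]
  have c2 : σ * e2 ≤ Y * (2 * ϑ ^ 2) := mul_le_mul s1 (by linarith) z3 (by linarith)
  have c2' : 0 ≤ σ * e2 := mul_nonneg s0 z3
  have c3 : |σ * t| ≤ σ * ϑ := by rw [abs_mul, abs_of_nonneg s0]; gcongr
  have c4 : |b * t| ≤ β * ϑ := by rw [abs_mul]; gcongr
  have c5 : |u * t| ≤ Y * ϑ := by rw [abs_mul]; gcongr
  obtain ⟨g2, hg2⟩ : ∃ g2, g2 = -(σ * t) / 2 - b * t / 2 + (u - σ + b) * e1 + σ * e2 := ⟨_, rfl⟩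
  have c6 : 0 ≤ Y * ϑ ^ 2 := by positivity
  have d1 : |g2| ≤ σ * ϑ / 2 + β * ϑ / 2 + 5 * Y * ϑ ^ 2 :=
    abs_le.2 ⟨by linarith [abs_le.1 c1, abs_le.1 c3, abs_le.1 c4],
      by linarith [abs_le.1 c1, abs_le.1 c3, abs_le.1 c4]⟩
  have d2 : |-(u * t) / 2 + g2| ≤ 4 * Y * ϑ := by
    have f1 : σ * ϑ ≤ Y * ϑ := by gcongr
    have f2 : β * ϑ ≤ Y * ϑ := mul_le_mul_of_nonneg_right (by linarith) t0
    have f3 : Y * ϑ * ϑ ≤ Y * ϑ * (1 / 2) := mul_le_mul_of_nonneg_left hϑ (by positivity)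
    exact abs_le.2 ⟨by linarith [abs_le.1 d1, abs_le.1 c5], by linarith [abs_le.1 d1, abs_le.1 c5]⟩
  have e : (u - σ + b) * ζ + σ * ζ ^ 2 - u = b + (-(u * t) / 2 + g2) := by
    rw [hg2, he1, he2]; ring
  rw [e]
  refine ⟨(abs_add_le _ _).trans (add_le_add hb d2), ?_⟩
  have d3 : u * b * g2 ≤ Y * β * (σ * ϑ / 2 + β * ϑ / 2 + 5 * Y * ϑ ^ 2) := by
    refine (le_abs_self _).trans ?_
    rw [abs_mul, abs_mul]
    gcongr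
  have d4 : u * (-(u * t) / 2 + g2) ^ 2 ≤ Y * (4 * Y * ϑ) ^ 2 := by
    refine (le_abs_self _).trans ?_
    rw [abs_mul, abs_pow]
    gcongr
  linarith [abs_le.1 c1]

theorem near_Bell {K μ η S τ R o : ℝ} (hK : 1 ≤ K) (hμ : 0 < μ) (hS : S * μ = 48 * K ^ 2)
    (hη : (1900 * K ^ 3) ^ 2 * η = μ) (h5 : 20 * K * η ≤ μ) (hμ1 : μ ≤ 1) (h12 : S * η ≤ 12)
    (t0 : 0 ≤ τ) (t1 : τ ≤ 1) (hR : 1 ≤ R) (ho : 0 < o) (hRo : R * o ≤ η) {β ϑ σ H : ℝ}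
    (hβ : β = K * τ * o) (hϑ : ϑ = K * τ * o ^ 2) (hσ : σ = S * R ^ 3 * o ^ 2)
    (hH : H = β + 4 * R * ϑ) :
    0 ≤ o * (μ * τ ^ 4) - R / 2 * (o ^ 2 * (K * τ ^ 4)) + σ / 2 * (o ^ 2 * (μ * τ ^ 2)) -
      R ^ 2 * (o ^ 3 * (K * τ ^ 3)) -
      (3 * R * ϑ ^ 2 + R * β * (σ * ϑ / 2 + β * ϑ / 2 + 5 * R * ϑ ^ 2) + 8 * R ^ 3 * ϑ ^ 2) -
      H ^ 3 * (1 + (R + H) ^ 2) * Real.exp (R * H) := by
  obtain ⟨e, he⟩ : ∃ e, e = R * o := ⟨_, rfl⟩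
  have e0 : 0 < e := by rw [he]; positivity
  have oe : o ≤ e := by rw [he]; nlinarith
  rw [← he] at hRo
  have eK : 20 * K * e ≤ μ := le_trans (by gcongr) h5
  have e1 : e ≤ 1 / 20 := by nlinarith
  have hS0 : 0 ≤ S := by
    by_contra hc
    nlinarith [mul_pos (neg_pos.2 (not_le.1 hc)) hμ]
  have b0 : 0 ≤ β := by rw [hβ]; positivity
  have H1 : H = β * (1 + 4 * e) := by rw [hH, hϑ, hβ, he]; ring
  have H0 : 0 ≤ H := by rw [H1]; positivity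
  have H5 : H ≤ 5 * β := by rw [H1]; nlinarith
  have Rb : R * β = K * τ * e := by rw [hβ, he]; ring
  have RH : R * H ≤ 1 := by
    have : K * τ * e ≤ K * 1 * e := by gcongr
    nlinarith [mul_le_mul_of_nonneg_left H5 (show 0 ≤ R by linarith)]
  have HR : H ≤ R := by nlinarith
  have r1 : H ^ 3 * (1 + (R + H) ^ 2) * Real.exp (R * H) ≤ (5 * β) ^ 3 * (5 * R ^ 2) * 3 := by
    gcongr
    · nlinarith
    · exact (Real.exp_le_exp.2 RH).trans Real.exp_one_lt_three.le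
  have k2 : 0 ≤ K ^ 2 * τ ^ 2 := by positivity
  have k3 : 0 ≤ K ^ 3 * τ ^ 3 * e ^ 2 := by positivity
  have q1 : K ^ 2 * τ ^ 2 * e * o ^ 2 ≤ K ^ 2 * τ ^ 2 * e * e ^ 2 := by gcongr
  have q2 : K ^ 3 * τ ^ 3 * e * o ^ 2 ≤ K ^ 3 * τ ^ 3 * e * (e * 1) := by
    rw [sq o]
    gcongr
    linarith
  have q3 : K ^ 3 * τ ^ 3 * e ^ 2 * o ^ 2 ≤ K ^ 3 * τ ^ 3 * e ^ 2 * 1 ^ 2 := by
    gcongr
    linarith
  have q4 : K * (τ ^ 3 * e ^ 2) ≤ K ^ 3 * (τ ^ 3 * e ^ 2) :=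
    mul_le_mul_of_nonneg_right (le_self_pow₀ hK (by norm_num)) (by positivity)
  have q5 : S * e * (K ^ 2 * τ ^ 2 * e ^ 3) ≤ 12 * (K ^ 2 * τ ^ 2 * e ^ 3) :=
    mul_le_mul_of_nonneg_right (le_trans (by gcongr) h12) (by positivity)
  have q6 : K * e * τ ^ 4 ≤ μ * τ ^ 4 :=
    mul_le_mul_of_nonneg_right (by nlinarith [mul_pos (show 0 < K by linarith) e0]) (by positivity)
  have q7 : 0 ≤ μ * τ ^ 2 / 2 - 1900 * K ^ 3 * τ * e ^ 2 + e ^ 3 / 2 := by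
    have a1 : (1900 * K ^ 3) ^ 2 * e * e ^ 3 ≤ μ * e ^ 3 :=
      mul_le_mul_of_nonneg_right (le_trans (by gcongr) hη.le) (by positivity)
    refine le_of_mul_le_mul_left ?_ hμ
    nlinarith [sq_nonneg (μ * τ - 1900 * K ^ 3 * e ^ 2)]
  have q8 := mul_nonneg (sq_nonneg τ) q7
  have q9 : 1 * (τ ^ 2 * e ^ 3) ≤ K ^ 2 * (τ ^ 2 * e ^ 3) :=
    mul_le_mul_of_nonneg_right (one_le_pow₀ hK) (by positivity)
  have q10 : S * μ * (τ ^ 2 * e ^ 3) = 48 * K ^ 2 * (τ ^ 2 * e ^ 3) := by rw [hS]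
  have q11 : 0 ≤ τ ^ 2 * e ^ 3 := by positivity
  have fin : 0 ≤ μ * τ ^ 4 - e * K * τ ^ 4 / 2 + S * e ^ 3 * μ * τ ^ 2 / 2 - e ^ 2 * K * τ ^ 3 -
      (3 * (K ^ 2 * τ ^ 2 * e * o ^ 2) + S * K ^ 2 * τ ^ 2 * e ^ 4 / 2 +
        K ^ 3 * τ ^ 3 * e * o ^ 2 / 2 + 5 * (K ^ 3 * τ ^ 3 * e ^ 2 * o ^ 2) +
        8 * (K ^ 2 * τ ^ 2 * e ^ 3)) - 1875 * (K ^ 3 * τ ^ 3 * e ^ 2) := by
    linarith
  refine le_trans (le_trans (mul_nonneg ho.le fin) (le_of_eq ?_)) (sub_le_sub_left r1 _)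
  rw [hβ, hϑ, hσ, he]
  ring

theorem far_Bell {K τ Y o β ϑ σ H : ℝ} (hK : 1 ≤ K) (t0 : 0 ≤ τ) (t1 : τ ≤ 1) (hY : 1 ≤ Y)
    (ho : 0 < o) (o1 : o ≤ 1) (hβ : β = K * τ * o) (hϑ : ϑ = K * τ * o ^ 2) (b1 : β ≤ 1 / 20)
    (s0 : 0 ≤ σ) (s1 : σ ≤ Y) (hH : H = β + 4 * Y * ϑ) :
    Y / 2 * (o ^ 2 * (K * τ ^ 4)) + Y ^ 2 * (o ^ 3 * (K * τ ^ 3)) +
      (3 * Y * ϑ ^ 2 + Y * β * (σ * ϑ / 2 + β * ϑ / 2 + 5 * Y * ϑ ^ 2) + 8 * Y ^ 3 * ϑ ^ 2) +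
      H ^ 3 * (1 + (Y + H) ^ 2) * Real.exp (Y * H) ≤
      400 * Y ^ 6 * (K * τ) ^ 2 * Real.exp (Y ^ 2 / 4) := by
  obtain ⟨k, hk⟩ : ∃ k, k = K * τ := ⟨_, rfl⟩
  have k0 : 0 ≤ k := by rw [hk]; positivity
  have a1 : K * τ ^ 3 ≤ k ^ 2 := by
    rw [hk, mul_pow]
    exact mul_le_mul (le_self_pow₀ hK (by norm_num)) (pow_le_pow_of_le_one t0 t1 (by norm_num))
      (by positivity) (by positivity)
  have a2 : K * τ ^ 4 ≤ k ^ 2 :=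
    le_trans (mul_le_mul_of_nonneg_left (pow_le_pow_of_le_one t0 t1 (by norm_num)) (by linarith)) a1
  rw [← hk] at hβ hϑ ⊢
  have b0 : 0 ≤ β := by rw [hβ]; positivity
  have bk : β ≤ k := by rw [hβ]; exact mul_le_of_le_one_right k0 o1
  have v0 : 0 ≤ ϑ := by rw [hϑ]; positivity
  have vb : ϑ ≤ β := by
    rw [hϑ, hβ, sq, ← mul_assoc]; exact mul_le_of_le_one_right (by positivity) o1
  have vk : ϑ ≤ k := vb.trans bk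
  have Y0 : 0 ≤ Y := by linarith
  have y : ∀ i : ℕ, i ≤ 6 → Y ^ i * k ^ 2 ≤ Y ^ 6 * k ^ 2 := fun i hi =>
    mul_le_mul_of_nonneg_right (pow_le_pow_right₀ hY hi) (by positivity)
  have c1 : Y / 2 * (o ^ 2 * (K * τ ^ 4)) ≤ Y / 2 * (1 ^ 2 * k ^ 2) := by gcongr
  have c2 : Y ^ 2 * (o ^ 3 * (K * τ ^ 3)) ≤ Y ^ 2 * (1 ^ 3 * k ^ 2) := by gcongr
  have c3 : 3 * Y * ϑ ^ 2 + Y * β * (σ * ϑ / 2 + β * ϑ / 2 + 5 * Y * ϑ ^ 2) + 8 * Y ^ 3 * ϑ ^ 2 ≤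
      3 * Y * k ^ 2 + Y * k * (Y * k / 2 + 1 * k / 2 + 5 * Y * (k * 1)) + 8 * Y ^ 3 * k ^ 2 := by
    have : ϑ ^ 2 ≤ k * 1 := by rw [sq]; gcongr; linarith
    gcongr
    linarith
  have H0 : 0 ≤ H := by rw [hH]; positivity
  have H5 : H ≤ 5 * Y * β := by
    rw [hH]
    nlinarith [mul_le_mul_of_nonneg_left vb Y0]
  have H4 : H ≤ Y / 4 := by nlinarith
  have c4 : H ^ 3 * (1 + (Y + H) ^ 2) * Real.exp (Y * H) ≤
      (125 * Y ^ 3 * k ^ 2) * (3 * Y ^ 3) * Real.exp (Y ^ 2 / 4) := by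
    have d1 : H ^ 3 ≤ 125 * Y ^ 3 * k ^ 2 :=
      calc H ^ 3 ≤ (5 * Y * β) ^ 3 := by gcongr
        _ = 125 * Y ^ 3 * (β ^ 2 * β) := by ring
        _ ≤ 125 * Y ^ 3 * (k ^ 2 * 1) := by gcongr; linarith
        _ = _ := by ring
    have d2 : 1 + (Y + H) ^ 2 ≤ 3 * Y ^ 3 := by
      have : Y ^ 2 ≤ Y ^ 3 := pow_le_pow_right₀ hY (by norm_num)
      nlinarith
    have d3 : Y * H ≤ Y ^ 2 / 4 := by nlinarith
    gcongr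
  have c5 : Y ^ 6 * k ^ 2 * 1 ≤ Y ^ 6 * k ^ 2 * Real.exp (Y ^ 2 / 4) :=
    mul_le_mul_of_nonneg_left (Real.one_le_exp (by positivity)) (by positivity)
  have c6 : 0 ≤ Y ^ 6 * k ^ 2 := by positivity
  linarith [y 1 (by norm_num), y 2 (by norm_num), y 3 (by norm_num)]

theorem six_Bell {Y R : ℝ} (hR : 0 ≤ R) (h : R ≤ Y) :
    Real.exp (-(Y ^ 2 / 2)) * (Y ^ 6 * Real.exp (Y ^ 2 / 4)) ≤ 3072 * Real.exp (-(R ^ 2 / 8)) := by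
  have h1 := Real.pow_div_factorial_le_exp (Y ^ 2 / 8) (by positivity) 3
  have h2 : Y ^ 6 ≤ 3072 * Real.exp (Y ^ 2 / 8) := by
    norm_num [Nat.factorial] at h1
    linarith
  calc _ ≤ Real.exp (-(Y ^ 2 / 2)) * (3072 * Real.exp (Y ^ 2 / 8) * Real.exp (Y ^ 2 / 4)) := by
        gcongr
    _ = 3072 * Real.exp (-(Y ^ 2 / 2) + Y ^ 2 / 8 + Y ^ 2 / 4) := by
        rw [Real.exp_add, Real.exp_add]; ring
    _ ≤ _ := by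
        have : R ^ 2 ≤ Y ^ 2 := by gcongr
        gcongr
        linarith

theorem avg_Bell (hT : STay) {K μ τ u σ o Y β ϑ H : ℝ} {π ξ D ζ : Bool × Bool → ℝ}
    (m : Mom K μ τ π ξ D) (hu : |u| ≤ Y) (s0 : 0 ≤ σ) (s1 : σ ≤ Y) (hY : 1 ≤ Y) (ho : 0 < o)
    (hβ : β = K * τ * o) (hϑ : ϑ = K * τ * o ^ 2) (b1 : β ≤ 1) (v1 : ϑ ≤ 1 / 2)
    (hH : H = β + 4 * Y * ϑ) (hζ : ∀ i, 0 < ζ i) (h : ∀ i, ζ i ^ 2 * (1 + o ^ 2 * D i) = 1) :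
    gF u + Real.exp (-(u ^ 2 / 2)) * (o * (μ * τ ^ 4) - Y / 2 * (o ^ 2 * (K * τ ^ 4)) +
      σ / 2 * (o ^ 2 * (μ * τ ^ 2)) - Y ^ 2 * (o ^ 3 * (K * τ ^ 3)) -
      (3 * Y * ϑ ^ 2 + Y * β * (σ * ϑ / 2 + β * ϑ / 2 + 5 * Y * ϑ ^ 2) + 8 * Y ^ 3 * ϑ ^ 2) -
      H ^ 3 * (1 + (Y + H) ^ 2) * Real.exp (Y * H)) ≤
      ∑ i, π i * gF ((u - σ + o * ξ i) * ζ i + σ * ζ i ^ 2) := by
  obtain ⟨Er, hEr⟩ : ∃ Er, Er = (3 * Y * ϑ ^ 2 +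
    Y * β * (σ * ϑ / 2 + β * ϑ / 2 + 5 * Y * ϑ ^ 2) + 8 * Y ^ 3 * ϑ ^ 2) := ⟨_, rfl⟩
  obtain ⟨Rm, hRm⟩ : ∃ Rm, Rm = H ^ 3 * (1 + (Y + H) ^ 2) * Real.exp (Y * H) := ⟨_, rfl⟩
  have key : ∀ i, gF u + Real.exp (-(u ^ 2 / 2)) * (o * ξ i - u / 2 * (o ^ 2 * (ξ i ^ 2 + D i)) -
      σ / 2 * (o ^ 2 * D i) + (u ^ 2 - 1) / 2 * (o ^ 3 * (ξ i * D i)) - Er - Rm) ≤
      gF ((u - σ + o * ξ i) * ζ i + σ * ζ i ^ 2) := by
    intro i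
    obtain ⟨p1, p2⟩ := point_Bell (b := o * ξ i) (t := o ^ 2 * D i) (β := β) (ϑ := ϑ) hu s0 s1 hY
      (by rw [abs_mul, abs_of_pos ho, hβ, mul_comm]; exact mul_le_mul_of_nonneg_right (m.bx i) ho.le)
      b1 (by
        rw [abs_mul, abs_of_pos (pow_pos ho 2), hϑ, mul_comm]
        exact mul_le_mul_of_nonneg_right (m.bd i) (by positivity)) v1 (hζ i) (h i)
    have p3 := hT u ((u - σ + o * ξ i) * ζ i + σ * ζ i ^ 2 - u)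
    rw [add_sub_cancel] at p3
    rw [← hH] at p1
    rw [← hEr] at p2
    generalize (u - σ + o * ξ i) * ζ i + σ * ζ i ^ 2 - u = x at p1 p2 p3
    have p4 : |x| ^ 3 * (1 + (|u| + |x|) ^ 2) * Real.exp (|u| * |x|) ≤ Rm := by
      have : 0 ≤ H := (abs_nonneg _).trans p1
      rw [hRm]
      gcongr
    refine le_trans (add_le_add_right (mul_le_mul_of_nonneg_left ?_ (Real.exp_pos _).le) _) p3
    linarith
  rw [← hEr, ← hRm]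
  refine le_trans ?_ (sum_le_sum fun i _ => mul_le_mul_of_nonneg_left (key i) (m.pos i))
  have e : ∑ i, π i * (gF u + Real.exp (-(u ^ 2 / 2)) * (o * ξ i -
      u / 2 * (o ^ 2 * (ξ i ^ 2 + D i)) - σ / 2 * (o ^ 2 * D i) +
      (u ^ 2 - 1) / 2 * (o ^ 3 * (ξ i * D i)) - Er - Rm)) = gF u * ∑ i, π i +
      Real.exp (-(u ^ 2 / 2)) * (o * ∑ i, π i * ξ i - u / 2 * (o ^ 2 * ∑ i, π i * (ξ i ^ 2 + D i)) +
      σ / 2 * (o ^ 2 * -∑ i, π i * D i) + (u ^ 2 - 1) / 2 * (o ^ 3 * ∑ i, π i * (ξ i * D i)) -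
      (Er + Rm) * ∑ i, π i) := by
    simp only [Fintype.sum_prod_type, Fintype.sum_bool]
    ring
  rw [e, m.one, mul_one, mul_one]
  refine add_le_add_right (mul_le_mul_of_nonneg_left ?_ (Real.exp_pos _).le) _
  have a1 := mul_le_mul_of_nonneg_left m.drift ho.le
  have a2 : u / 2 * (o ^ 2 * ∑ i, π i * (ξ i ^ 2 + D i)) ≤ Y / 2 * (o ^ 2 * (K * τ ^ 4)) := by
    refine (le_abs_self _).trans ?_
    rw [abs_mul, abs_mul, abs_div, abs_two, abs_of_pos (pow_pos ho 2)]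
    gcongr
    exact m.clock
  have a3 : σ / 2 * (o ^ 2 * (μ * τ ^ 2)) ≤ σ / 2 * (o ^ 2 * -∑ i, π i * D i) := by
    gcongr
    exact m.down
  have a4 : |(u ^ 2 - 1) / 2 * (o ^ 3 * ∑ i, π i * (ξ i * D i))| ≤
      Y ^ 2 * (o ^ 3 * (K * τ ^ 3)) := by
    have u2 : u ^ 2 ≤ Y ^ 2 := by rw [← sq_abs]; gcongr
    have y2 : 1 ≤ Y ^ 2 := one_le_pow₀ hY
    rw [abs_mul, abs_mul, abs_of_pos (pow_pos ho 3)]
    gcongr
    · exact abs_le.2 ⟨by linarith [sq_nonneg u], by linarith⟩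
    · exact m.cross
  linarith [abs_le.1 a4]

theorem sBell (hT : STay) : SBell := by
  intro K μ hK hμ hμ1
  have K0 : 0 < K := by linarith
  obtain ⟨η, hη⟩ : ∃ η, η = μ / (1900 * K ^ 3) ^ 2 := ⟨_, rfl⟩
  obtain ⟨S, hS⟩ : ∃ S, S = 48 * K ^ 2 / μ := ⟨_, rfl⟩
  have η0 : 0 < η := by rw [hη]; positivity
  have S0 : 0 ≤ S := by rw [hS]; positivity
  have e1 : (1900 * K ^ 3) ^ 2 * η = μ := by rw [hη]; field_simp
  have e2 : S * μ = 48 * K ^ 2 := by rw [hS]; field_simp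
  have k1 : K * η ≤ K ^ 6 * η := mul_le_mul_of_nonneg_right (le_self_pow₀ hK (by norm_num)) η0.le
  have k0 : 1 * η ≤ K * η := mul_le_mul_of_nonneg_right hK η0.le
  have h5 : 20 * K * η ≤ μ := by linarith
  have h12 : S * η ≤ 1 := by
    refine le_of_mul_le_mul_right ?_ hμ
    have : K ^ 2 * η ≤ K ^ 6 * η :=
      mul_le_mul_of_nonneg_right (pow_le_pow_right₀ hK (by norm_num)) η0.le
    calc S * η * μ = 48 * (K ^ 2 * η) := by linear_combination η * e2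
      _ ≤ _ := by linarith
  have η1 : η ≤ 1 := by linarith
  refine ⟨η, S, 400 * 3072 * K ^ 2 / μ, η0, η1, S0, by nlinarith, by positivity, ?_⟩
  intro R X W τ π ξ D hR hW m
  have hRη : R ≤ R / η := by rw [le_div_iff₀ η0]; nlinarith
  have W0 : 0 < W := lt_of_lt_of_le (by positivity) hW
  have w0 : 0 < √W := Real.sqrt_pos.2 W0
  obtain ⟨o, ho⟩ : ∃ o, o = 1 / √W := ⟨_, rfl⟩
  have o0 : 0 < o := by rw [ho]; positivity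
  have o2 : o ^ 2 * W = 1 := by rw [ho, div_pow, Real.sq_sqrt W0.le]; field_simp
  have hRo : R * o ≤ η := by
    have := Real.le_sqrt_of_sq_le hW
    rw [div_le_iff₀ η0] at this
    rw [ho, mul_one_div, div_le_iff₀ w0]
    linarith
  have oη : o ≤ η := by nlinarith
  have t0 := m.t0
  have b1 : K * τ * o ≤ 1 / 20 := by
    have : K * τ * o ≤ K * 1 * η := by gcongr; exact m.t1
    linarith
  have v1 : K * τ * o ^ 2 ≤ 1 / 2 := by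
    have : K * τ * o * o ≤ 1 / 20 * 1 := by gcongr; linarith
    linarith
  have hD : ∀ i, W / 2 ≤ W + D i := fun i => by
    have a1 : K * τ * o ^ 2 * W ≤ 1 / 2 * W := by gcongr
    rw [mul_assoc, o2] at a1
    linarith [abs_le.1 (m.bd i)]
  refine ⟨hD, ?_⟩
  have hp : ∀ i, 0 < W + D i := fun i => by linarith [hD i]
  obtain ⟨σ, hσ⟩ : ∃ σ, σ = S * R ^ 3 * o ^ 2 := ⟨_, rfl⟩
  have s0 : 0 ≤ σ := by rw [hσ]; positivity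
  have s1 : σ ≤ R := by
    have a1 : S * (R * o) ^ 2 ≤ S * (η * 1) := by
      rw [sq]
      gcongr
      linarith
    calc σ = R * (S * (R * o) ^ 2) := by rw [hσ]; ring
      _ ≤ R * 1 := by gcongr; linarith
      _ = R := mul_one R
  have oW : o ^ 2 = 1 / W := by rw [eq_div_iff W0.ne', o2]
  obtain ⟨u, hu⟩ : ∃ u, u = X / √W + S * R ^ 3 / W := ⟨_, rfl⟩
  have hz : ∀ i, (√W / √(W + D i)) ^ 2 = W / (W + D i) := fun i => by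
    rw [div_pow, Real.sq_sqrt W0.le, Real.sq_sqrt (hp i).le]
  have main := fun Y (a : |u| ≤ Y) (b : σ ≤ Y) (c : 1 ≤ Y) => avg_Bell hT m (u := u) (σ := σ)
    (ζ := fun i => √W / √(W + D i)) a s0 b c o0 rfl rfl (by linarith) v1 rfl
    (fun i => div_pos w0 (Real.sqrt_pos.2 (hp i))) fun i => by
      have := (hp i).ne'
      rw [hz, oW]; field_simp
  have eq : ∀ i, (u - σ + o * ξ i) * (√W / √(W + D i)) + σ * (√W / √(W + D i)) ^ 2 =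
      (X + ξ i) / √(W + D i) + S * R ^ 3 / (W + D i) := fun i => by
    have := (hp i).ne'
    have := (Real.sqrt_pos.2 (hp i)).ne'
    rw [hz, hu, hσ, oW, ho]
    field_simp
    ring
  simp only [eq] at main
  obtain ⟨c, hc⟩ : ∃ c, c = 400 * 3072 * K ^ 2 / μ * Real.exp (-(R ^ 2 / 8)) := ⟨_, rfl⟩
  have c0 : 0 ≤ c := by rw [hc]; positivity
  have e : ∑ i, π i * pot (S * R ^ 3) c (X + ξ i) (W + D i) =
      ∑ i, π i * gF ((X + ξ i) / √(W + D i) + S * R ^ 3 / (W + D i)) - c * W * ∑ i, π i +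
        c * -∑ i, π i * D i := by
    simp only [pot, Fintype.sum_prod_type, Fintype.sum_bool]
    ring
  rw [← hc, e, m.one, pot, ← hu]
  have g := mul_le_mul_of_nonneg_left m.down c0
  rcases le_total |u| R with h | h
  · have a1 := mul_nonneg (Real.exp_pos (-(u ^ 2 / 2))).le
      (near_Bell hK hμ e2 e1 h5 hμ1 (by linarith) t0 m.t1 hR o0 hRo rfl rfl hσ rfl)
    have a2 : 0 ≤ c * (μ * τ ^ 2) := by positivity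
    linarith [main R h s1 hR]
  · have a1 := mul_le_mul_of_nonneg_left (far_Bell hK t0 m.t1 (hR.trans h) o0 (by linarith) rfl rfl
      b1 s0 (s1.trans h) rfl) (Real.exp_pos (-(u ^ 2 / 2))).le
    have a2 := mul_le_mul_of_nonneg_left (six_Bell (by linarith) h)
      (show 0 ≤ 400 * (K * τ) ^ 2 by positivity)
    rw [sq_abs] at a2 a1
    have a3 : c * (μ * τ ^ 2) = 400 * (K * τ) ^ 2 * (3072 * Real.exp (-(R ^ 2 / 8))) := by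
      rw [hc]; field_simp
    have a4 : 0 ≤ Real.exp (-(u ^ 2 / 2)) * (o * (μ * τ ^ 4) + σ / 2 * (o ^ 2 * (μ * τ ^ 2))) := by
      positivity
    have a5 := main |u| le_rfl (s1.trans h) (hR.trans h)
    rw [sq_abs] at a5
    linarith

end Pool.Agent.MP_ebf981_lc.PL
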