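import Pool.Agent.MP_ebf981_lc.PL.St

/-! The Chernoff bound for the noise operator applied to a half cube. -/

namespace Pool.Agent.MP_ebf981_lc.PL

open Finset Pool.Agent.MP_ebf981_lc.LN

noncomputable def A_Cher (t : ℝ) : ℝ := (Real.log (1 + t) - Real.log (1 - t)) / 2

noncomputable def ph_Cher (t : ℝ) : ℝ := (Real.log (1 + t) + Real.log (1 - t)) / 2

theorem le_A_Cher {t : ℝ} (h0 : 0 ≤ t) (h1 : t < 1) : t ≤ A_Cher t := by
  have h2 : 0 < 1 - t := by linarith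
  have h3 := Real.le_log_one_add_of_nonneg (x := 2 * t / (1 - t)) (by positivity)
  have e1 : 1 + 2 * t / (1 - t) = (1 + t) / (1 - t) := by field_simp; ring
  have e2 : 2 * (2 * t / (1 - t)) / (2 * t / (1 - t) + 2) = 2 * t := by field_simp; ring
  rw [e1, e2, Real.log_div (by linarith) h2.ne'] at h3
  unfold A_Cher
  linarith

theorem ph_eq_Cher {t : ℝ} (h0 : 0 ≤ t) (h1 : t < 1) : ph_Cher t = Real.log (1 - t ^ 2) / 2 := by
  rw [ph_Cher, ← Real.log_mul (by linarith) (by linarith)]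
  congr 2
  ring

theorem ph_le_Cher {t : ℝ} (h0 : 0 ≤ t) (h1 : t < 1) : ph_Cher t ≤ -(t ^ 2 / 2) := by
  have := Real.log_le_sub_one_of_pos (show 0 < 1 - t ^ 2 by nlinarith)
  rw [ph_eq_Cher h0 h1]
  linarith

theorem le_ph_Cher {t : ℝ} (h0 : 0 ≤ t) (h1 : t < 1) (h2 : t ^ 2 ≤ 1 / 2) :
    -ph_Cher t ≤ t ^ 2 / 2 + (t ^ 2) ^ 2 := by
  have h3 : 0 < 1 - t ^ 2 := by linarith
  have h4 := Real.one_sub_inv_le_log_of_pos h3
  have h5 : (1 - t ^ 2)⁻¹ ≤ 1 + t ^ 2 + 2 * (t ^ 2) ^ 2 := by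
    rw [inv_le_iff_one_le_mul₀ h3]
    nlinarith [mul_nonneg (sq_nonneg (t ^ 2)) (show 0 ≤ 1 - 2 * t ^ 2 by linarith)]
  rw [ph_eq_Cher h0 h1]
  linarith

theorem prod_Cher {n : ℕ} {t : ℝ} (h0 : 0 ≤ t) (h1 : t < 1) (y : Fin n → Bool) :
    ∏ j, (1 - t * sg (y j)) = Real.exp (n * ph_Cher t - A_Cher t * ∑ j, sg (y j)) := by
  have e : (n : ℝ) * ph_Cher t - A_Cher t * ∑ j, sg (y j) =
      ∑ j, (ph_Cher t - A_Cher t * sg (y j)) := by
    rw [sum_sub_distrib, mul_sum]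
    simp
  rw [e, Real.exp_sum]
  refine prod_congr rfl fun j _ => ?_
  cases y j
  · rw [show ph_Cher t - A_Cher t * sg false = Real.log (1 + t) by
      simp [ph_Cher, A_Cher, sg]; ring, Real.exp_log (by linarith)]
    simp [sg]
  · rw [show ph_Cher t - A_Cher t * sg true = Real.log (1 - t) by
      simp [ph_Cher, A_Cher, sg]; ring, Real.exp_log (by linarith)]
    simp [sg]

theorem T_le_Cher {n : ℕ} {ε t : ℝ} (he0 : 0 < ε) (he1 : ε < 1 / 2) (h0 : 0 ≤ t) (h1 : t < 1)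
    (x : Fin n → Bool) :
    T ε (fun y => if ∑ j, sg (y j) ≤ 0 then 1 else 0) x ≤
      Real.exp (-(n * ph_Cher t)) * ∏ j, (1 - (1 - 2 * ε) * t * sg (x j)) := by
  have e : ∏ j, (1 - (1 - 2 * ε) * t * sg (x j)) =
      ∑ y : Fin n → Bool, ker ε x y * ∏ j, (1 - t * sg (y j)) := by
    simp only [ker, ← prod_mul_distrib]
    rw [sum_prod (fun j b => (if b = x j then 1 - ε else ε) * (1 - t * sg b))]
    refine prod_congr rfl fun j _ => ?_
    cases x j <;> simp [sg] <;> ring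
  rw [e, mul_sum, T]
  refine sum_le_sum fun y _ => ?_
  have hk : 0 ≤ ker ε x y := prod_nonneg fun j _ => by split_ifs <;> linarith
  rw [mul_left_comm]
  refine mul_le_mul_of_nonneg_left ?_ hk
  rw [prod_Cher h0 h1, ← Real.exp_add]
  split_ifs with h
  · have := mul_nonpos_of_nonneg_of_nonpos (h0.trans (le_A_Cher h0 h1)) h
    exact Real.one_le_exp (by linarith)
  · exact (Real.exp_pos _).le

theorem sCher : SCher := by
  intro ε he0 he1 n lam x hl hn hx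
  have hp := pp_pos he0 he1
  have hpe := pp_eq ε
  have hν : nu ε * (1 - 2 * ε) ^ 2 = pp ε := by
    have : (1 - 2 * ε) ≠ 0 := by linarith
    unfold nu
    field_simp
  have hν0 := nu_pos he0 he1
  set p := pp ε
  set ρ := 1 - 2 * ε with hρ
  have hρ0 : 0 < ρ := by linarith
  have hρ1 : ρ < 1 := by linarith
  have hl0 : 0 < lam := lt_of_lt_of_le (by positivity) hl
  have hpl : 4 ≤ lam * p := (div_le_iff₀ hp).1 hl
  have hn0 : (0 : ℝ) < n := lt_of_lt_of_le (by positivity) hn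
  set s := √(2 * nu ε * n * lam) with hs
  have hs0 : 0 ≤ s := Real.sqrt_nonneg _
  have hs2 : s ^ 2 = 2 * nu ε * n * lam := Real.sq_sqrt (by positivity)
  have hs3 : ρ ^ 2 * s ^ 2 = 2 * p * n * lam := by rw [hs2, ← hν]; ring
  set t := ρ * s / (n * p) with ht
  have ht0 : 0 ≤ t := by positivity
  have ht2 : t ^ 2 = 2 * lam / (n * p) := by
    rw [ht, div_pow, mul_pow, hs3]
    field_simp
  have ht3 : t ^ 2 ≤ 1 / 2 := by
    rw [ht2, div_le_iff₀ (by positivity)]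
    have d1 := mul_le_mul_of_nonneg_right hn hp.le
    have d2 := mul_le_mul_of_nonneg_left hpl hl0.le
    have d3 : lam * (lam * p) = lam ^ 2 * p := by ring
    linarith
  have ht1 : t < 1 := lt_of_pow_lt_pow_left₀ 2 zero_le_one (by linarith)
  have hrt0 : 0 ≤ ρ * t := by positivity
  have hrt1 : ρ * t < 1 := (mul_le_of_le_one_left ht0 hρ1.le).trans_lt ht1
  have e1 : ρ * t * s = 2 * lam := by
    rw [ht, show ρ * (ρ * s / (n * p)) * s = ρ ^ 2 * s ^ 2 / (n * p) by ring, hs3]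
    field_simp
  have e2 : n * (p * t ^ 2 / 2) = lam := by
    rw [ht2]
    field_simp
  have e3 : n * (t ^ 2) ^ 2 ≤ 4 / p ^ 2 := by
    rw [ht2, show (n : ℝ) * (2 * lam / (n * p)) ^ 2 = 4 / p ^ 2 * (lam ^ 2 / n) by
      field_simp; ring]
    exact mul_le_of_le_one_right (by positivity) ((div_le_one hn0).2 hn)
  refine (T_le_Cher he0 he1 ht0 ht1 x).trans ?_
  rw [prod_Cher hrt0 hrt1, ← Real.exp_add]
  refine Real.exp_le_exp.2 ?_
  have b1 : ρ * t * s ≤ A_Cher (ρ * t) * ∑ j, sg (x j) :=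
    mul_le_mul (le_A_Cher hrt0 hrt1) hx hs0 (hrt0.trans (le_A_Cher hrt0 hrt1))
  have b2 : ph_Cher (ρ * t) - ph_Cher t ≤ p * t ^ 2 / 2 + (t ^ 2) ^ 2 := by
    have c1 := ph_le_Cher hrt0 hrt1
    have c2 := le_ph_Cher ht0 ht1 ht3
    have c3 : p * t ^ 2 / 2 = t ^ 2 / 2 - (ρ * t) ^ 2 / 2 := by rw [hpe]; ring
    linarith
  have b3 := mul_le_mul_of_nonneg_left b2 hn0.le
  rw [mul_sub, mul_add, e2] at b3
  linarith

end Pool.Agent.MP_ebf981_lc.PL
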