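import Pool.Agent.MP_ebf981_lc.PL.St

namespace Pool.Agent.MP_ebf981_lc.PL

open Finset Pool.Agent.MP_ebf981_lc.LN

theorem pos_Drift {f f' : ℝ → ℝ} {t : ℝ} (h0 : f 0 = 0) (hd : ∀ t, HasDerivAt f (f' t) t)
    (ht : 0 ≤ t) (hp : ∀ u, 0 ≤ u → u ≤ t → 0 ≤ f' u) : 0 ≤ f t := by
  have := monotoneOn_of_deriv_nonneg (convex_Icc 0 t) (f := f)
    (fun x _ => (hd x).continuousAt.continuousWithinAt)
    (fun x _ => (hd x).differentiableAt.differentiableWithinAt) (fun x hx => by
      rw [(hd x).deriv]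
      exact hp x (interior_subset hx).1 (interior_subset hx).2)
    (Set.left_mem_Icc.2 ht) (Set.right_mem_Icc.2 ht) ht
  rwa [h0] at this

theorem num_Drift {p θ : ℝ} (h0 : 0 < p) (h1 : p < 1) (hθ : 0 ≤ θ) :
    p * (2 - p) * (1 - p) / 3 * θ ^ 3 ≤ p * Real.sinh θ * Real.cosh θ * Real.cosh (p * θ) -
      (1 + p * Real.sinh θ ^ 2) * Real.sinh (p * θ) := by
  rw [← sub_nonneg]
  refine pos_Drift (f := fun θ => p * Real.sinh θ * Real.cosh θ * Real.cosh (p * θ) -
      (1 + p * Real.sinh θ ^ 2) * Real.sinh (p * θ) - p * (2 - p) * (1 - p) / 3 * θ ^ 3)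
    (f' := fun θ => p * (2 - p) * (Real.sinh θ * Real.sinh (θ - p * θ) - (1 - p) * θ ^ 2))
    (by simp) (fun t => ?_) hθ fun u hu _ => ?_
  · have a := Real.hasDerivAt_sinh t
    have b := Real.hasDerivAt_cosh t
    have l : HasDerivAt (fun θ : ℝ => p * θ) p t := by simpa using (hasDerivAt_id t).const_mul p
    refine (((((a.const_mul p).fun_mul b).fun_mul l.cosh).fun_sub
      ((((a.fun_pow 2).const_mul p).const_add 1).fun_mul l.sinh)).fun_sub
      ((hasDerivAt_pow 3 t).const_mul _)).congr_deriv ?_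
    rw [Real.sinh_sub]
    have := Real.cosh_sq t
    push_cast
    linear_combination (p * Real.cosh (p * t)) * this
  · have a : u ≤ Real.sinh u := Real.self_le_sinh_iff.2 hu
    have c : 0 ≤ u - p * u := by nlinarith
    have b : u - p * u ≤ Real.sinh (u - p * u) := Real.self_le_sinh_iff.2 c
    have := mul_le_mul a b c (hu.trans a)
    refine mul_nonneg (mul_nonneg h0.le (by linarith)) (by linarith)

theorem sDrift : SDrift := by
  intro p θ₀ h0 h1
  have hM : 0 < (1 + Real.sinh |θ₀| ^ 2) * Real.cosh |θ₀| := by positivity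
  set M := (1 + Real.sinh |θ₀| ^ 2) * Real.cosh |θ₀| with hMe
  have hk : 0 < p * (2 - p) * (1 - p) / 3 :=
    div_pos (mul_pos (mul_pos h0 (by linarith)) (by linarith)) three_pos
  have hn := fun θ => num_Drift (θ := θ) h0 h1
  set k := p * (2 - p) * (1 - p) / 3
  refine ⟨k / M / 4, by positivity, fun θ hθ hθ' => ?_⟩
  rw [← sub_nonneg]
  refine pos_Drift (f := fun θ => Real.log (1 + p * Real.sinh θ ^ 2) / 2 -
      Real.log (Real.cosh (p * θ)) / p - k / M / 4 * θ ^ 4)
    (f' := fun θ => (p * Real.sinh θ * Real.cosh θ * Real.cosh (p * θ) -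
      (1 + p * Real.sinh θ ^ 2) * Real.sinh (p * θ)) /
        ((1 + p * Real.sinh θ ^ 2) * Real.cosh (p * θ)) - k * θ ^ 3 / M)
    (by simp) (fun t => ?_) hθ fun u hu hu' => ?_
  · have a := Real.hasDerivAt_sinh t
    have l : HasDerivAt (fun θ : ℝ => p * θ) p t := by simpa using (hasDerivAt_id t).const_mul p
    have e1 : 0 < 1 + p * Real.sinh t ^ 2 := by positivity
    have e2 := Real.cosh_pos (p * t)
    refine (((((((a.fun_pow 2).const_mul p).const_add 1).log e1.ne').div_const 2).fun_sub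
      ((l.cosh.log e2.ne').div_const p)).fun_sub
      ((hasDerivAt_pow 4 t).const_mul _)).congr_deriv ?_
    push_cast
    field_simp
  · have u1 : u ≤ |θ₀| := hu'.trans (hθ'.trans (le_abs_self _))
    have s0 : 0 ≤ Real.sinh u := Real.sinh_nonneg_iff.2 hu
    have s1 : Real.sinh u ^ 2 ≤ Real.sinh |θ₀| ^ 2 :=
      pow_le_pow_left₀ s0 (Real.sinh_le_sinh.2 u1) 2
    have c1 : Real.cosh (p * u) ≤ Real.cosh |θ₀| := by
      rw [Real.cosh_le_cosh, abs_abs, abs_of_nonneg (mul_nonneg h0.le hu)]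
      nlinarith
    have e2 := Real.cosh_pos (p * u)
    rw [sub_nonneg]
    refine div_le_div₀ (le_trans (by positivity) (hn u hu)) (hn u hu) (by positivity) ?_
    exact mul_le_mul (by nlinarith [sq_nonneg (Real.sinh u)]) c1 e2.le (by positivity)

end Pool.Agent.MP_ebf981_lc.PL
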