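import Pool.Agent.MP_ebf981_lc.PL.St

/-! Expansions for the tilted step. -/

namespace Pool.Agent.MP_ebf981_lc.PL

open Finset Pool.Agent.MP_ebf981_lc.LN

theorem mvt_Exp {f f' : ℝ → ℝ} (h0 : f 0 = 0) (hd : ∀ t, HasDerivAt f (f' t) t) {θ : ℝ}
    (hθ : 0 ≤ θ) : ∃ c, 0 ≤ c ∧ c ≤ θ ∧ f θ = f' c * θ := by
  rcases hθ.eq_or_lt with rfl | h
  · exact ⟨0, le_rfl, le_rfl, by rw [h0, mul_zero]⟩
  · obtain ⟨c, hc, e⟩ := exists_hasDerivAt_eq_slope f f' h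
      (fun t _ => (hd t).continuousAt.continuousWithinAt) fun t _ => hd t
    refine ⟨c, hc.1.le, hc.2.le, ?_⟩
    rw [e, h0, sub_zero, sub_zero, div_mul_cancel₀ _ h.ne']

theorem gen_Exp {f f' : ℝ → ℝ} (K : ℝ) (k : ℕ) (hK : 0 ≤ K) (h0 : f 0 = 0)
    (hd : ∀ t, HasDerivAt f (f' t) t) (hb : ∀ t, 0 ≤ t → |f' t| ≤ K * t ^ k) (θ : ℝ)
    (hθ : 0 ≤ θ) : |f θ| ≤ K * θ ^ (k + 1) := by
  obtain ⟨c, h1, h2, e⟩ := mvt_Exp h0 hd hθ
  rw [e, abs_mul, abs_of_nonneg hθ, pow_succ, ← mul_assoc]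
  exact mul_le_mul_of_nonneg_right ((hb c h1).trans
    (mul_le_mul_of_nonneg_left (pow_le_pow_left₀ h1 h2 k) hK)) hθ

noncomputable def L_Exp (ρ x : ℝ) : ℝ := Real.log (Real.cosh x + ρ * Real.sinh x)

noncomputable def m_Exp (ρ x : ℝ) : ℝ :=
  (Real.sinh x + ρ * Real.cosh x) / (Real.cosh x + ρ * Real.sinh x)

theorem pos_Exp {ρ : ℝ} (h : |ρ| < 1) (x : ℝ) : 0 < Real.cosh x + ρ * Real.sinh x := by
  obtain ⟨h1, h2⟩ := abs_lt.1 h
  have e1 := Real.cosh_add_sinh x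
  have e2 := Real.cosh_sub_sinh x
  have a1 := mul_pos (by linarith : 0 < 1 + ρ) (Real.exp_pos x)
  have a2 := mul_pos (by linarith : 0 < 1 - ρ) (Real.exp_pos (-x))
  rw [← e1] at a1
  rw [← e2] at a2
  linarith

theorem dN_Exp (ρ x : ℝ) : HasDerivAt (fun x => Real.cosh x + ρ * Real.sinh x)
    (Real.sinh x + ρ * Real.cosh x) x :=
  (Real.hasDerivAt_cosh x).add ((Real.hasDerivAt_sinh x).const_mul ρ)

theorem dL_Exp {ρ : ℝ} (h : |ρ| < 1) (x : ℝ) : HasDerivAt (L_Exp ρ) (m_Exp ρ x) x :=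
  (dN_Exp ρ x).log (pos_Exp h x).ne'

theorem dm_Exp {ρ : ℝ} (h : |ρ| < 1) (x : ℝ) : HasDerivAt (m_Exp ρ) (1 - m_Exp ρ x ^ 2) x := by
  have h1 : HasDerivAt (fun x => Real.sinh x + ρ * Real.cosh x)
      (Real.cosh x + ρ * Real.sinh x) x :=
    (Real.hasDerivAt_sinh x).add ((Real.hasDerivAt_cosh x).const_mul ρ)
  have h2 := (pos_Exp h x).ne'
  refine (h1.div (dN_Exp ρ x) h2).congr_deriv ?_
  unfold m_Exp
  field_simp

theorem one_sub_Exp {ρ : ℝ} (h : |ρ| < 1) (x : ℝ) :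
    1 - m_Exp ρ x ^ 2 = (1 - ρ ^ 2) / (Real.cosh x + ρ * Real.sinh x) ^ 2 := by
  have h2 := (pos_Exp h x).ne'
  rw [m_Exp, div_pow, one_sub_div (pow_ne_zero 2 h2)]
  congr 1
  linear_combination (1 - ρ ^ 2) * Real.cosh_sq x

theorem p_pos_Exp {ρ : ℝ} (h : |ρ| < 1) : 0 < 1 - ρ ^ 2 := by
  obtain ⟨h1, h2⟩ := abs_lt.1 h
  nlinarith

theorem msq_Exp {ρ : ℝ} (h : |ρ| < 1) (x : ℝ) : m_Exp ρ x ^ 2 ≤ 1 := by
  have := div_pos (p_pos_Exp h) (pow_pos (pos_Exp h x) 2)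
  rw [← one_sub_Exp h] at this
  linarith

theorem mabs_Exp {ρ : ℝ} (h : |ρ| < 1) (x : ℝ) : |m_Exp ρ x| ≤ 1 :=
  (sq_le_one_iff_abs_le_one _).1 (msq_Exp h x)

theorem L0_Exp (ρ : ℝ) : L_Exp ρ 0 = 0 := by simp [L_Exp]

theorem m0_Exp (ρ : ℝ) : m_Exp ρ 0 = ρ := by simp [m_Exp]

theorem mdiff_Exp {ρ : ℝ} (h : |ρ| < 1) (x : ℝ) (hx : 0 ≤ x) : |m_Exp ρ x - ρ| ≤ x := by
  have := gen_Exp (f := fun x => m_Exp ρ x - ρ) 1 0 zero_le_one (by simp [m0_Exp])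
    (fun t => (dm_Exp h t).sub_const ρ) (fun t _ => by
      have := msq_Exp h t
      have := sq_nonneg (m_Exp ρ t)
      rw [abs_le]; constructor <;> linarith) x hx
  simpa using this

theorem dg_Exp {ρ : ℝ} (h : |ρ| < 1) (x : ℝ) :
    HasDerivAt (fun x => L_Exp ρ x - x * m_Exp ρ x) (-(x * (1 - m_Exp ρ x ^ 2))) x :=
  ((dL_Exp h x).sub ((hasDerivAt_id' x).mul (dm_Exp h x))).congr_deriv (by ring)

theorem sExp : SExp := by
  intro ρ θ h hθ
  have hp := p_pos_Exp h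
  have hp1 : 1 - ρ ^ 2 ≤ 1 := by nlinarith
  have h0 : |(0 : ℝ)| < 1 := by simp
  have hn : |-ρ| < 1 := by rwa [abs_neg]
  have dt : ∀ x, HasDerivAt (fun x => m_Exp 0 ((1 - ρ ^ 2) * x))
      ((1 - m_Exp 0 ((1 - ρ ^ 2) * x) ^ 2) * (1 - ρ ^ 2)) x := fun x =>
    (dm_Exp h0 _).comp x (((hasDerivAt_id' x).const_mul (1 - ρ ^ 2)).congr_deriv (mul_one _))
  have dxi : ∀ x, HasDerivAt (fun x => L_Exp ρ x - L_Exp 0 ((1 - ρ ^ 2) * x) / (1 - ρ ^ 2))
      (m_Exp ρ x - m_Exp 0 ((1 - ρ ^ 2) * x)) x := fun x =>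
    ((dL_Exp h x).sub ((((dL_Exp h0 _).comp x (((hasDerivAt_id' x).const_mul
      (1 - ρ ^ 2)).congr_deriv (mul_one _)))).div_const (1 - ρ ^ 2))).congr_deriv (by
        rw [mul_div_cancel_right₀ _ hp.ne'])
  have eL : Real.log (Real.cosh ((1 - ρ ^ 2) * θ)) = L_Exp 0 ((1 - ρ ^ 2) * θ) := by
    simp [L_Exp]
  have eL' : Real.log (Real.cosh θ - ρ * Real.sinh θ) = L_Exp (-ρ) θ := by
    rw [L_Exp, neg_mul, sub_eq_add_neg]
  have em' : (Real.sinh θ - ρ * Real.cosh θ) / (Real.cosh θ - ρ * Real.sinh θ) =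
      m_Exp (-ρ) θ := by
    rw [m_Exp, neg_mul, neg_mul, sub_eq_add_neg, sub_eq_add_neg]
  rw [eL, eL', em']
  refine ⟨?_, ?_, ?_, ?_, ?_, ?_⟩
  · have := gen_Exp 1 0 zero_le_one (L0_Exp ρ) (dL_Exp h)
      (fun t _ => by simpa using mabs_Exp h t) θ hθ
    simpa [L_Exp] using this
  · have := gen_Exp 2 0 zero_le_two (by simp [L0_Exp]) dxi (fun t _ => by
      have h1 := abs_le.1 (mabs_Exp h t)
      have h2 := abs_le.1 (mabs_Exp h0 ((1 - ρ ^ 2) * t))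
      rw [abs_le]; constructor <;> linarith [h1.1, h1.2, h2.1, h2.2]) θ hθ
    rw [zero_add, pow_one] at this
    exact this
  · have a1 := gen_Exp (f := fun x => m_Exp ρ x - m_Exp 0 ((1 - ρ ^ 2) * x) - ρ) 3 1
      (by norm_num) (by simp [m0_Exp]) (fun t => ((dm_Exp h t).sub (dt t)).sub_const ρ)
      (fun t ht => by
        have h1 := abs_le.1 (mabs_Exp h t)
        have h2 := mabs_Exp h0 ((1 - ρ ^ 2) * t)
        have h3 := mdiff_Exp h t ht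
        have h4 := mdiff_Exp h0 ((1 - ρ ^ 2) * t) (by positivity)
        have h5 := abs_lt.1 h
        rw [sub_zero] at h4
        have h6 : |m_Exp ρ t + ρ| ≤ 2 := by
          rw [abs_le]; constructor <;> linarith [h1.1, h1.2, h5.1, h5.2]
        have h7 := mul_le_mul h3 h6 (abs_nonneg _) ht
        rw [← abs_mul, abs_le] at h7
        have h8 : (1 - ρ ^ 2) * t ≤ t := by nlinarith
        have h9 := mul_le_mul (h4.trans h8) h2 (abs_nonneg _) ht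
        rw [abs_mul_abs_self] at h9
        have h10 := mul_self_nonneg (m_Exp 0 ((1 - ρ ^ 2) * t))
        have h11 := mul_le_mul_of_nonneg_right hp1 h10
        have h12 := mul_nonneg hp.le h10
        rw [abs_le]; constructor <;> nlinarith [h7.1, h7.2])
    exact gen_Exp (f := fun x => L_Exp ρ x - L_Exp 0 ((1 - ρ ^ 2) * x) / (1 - ρ ^ 2) - ρ * x)
      3 2 (by norm_num) (by simp [L0_Exp])
      (fun t => (dxi t).sub (((hasDerivAt_id' t).const_mul ρ).congr_deriv (mul_one _))) a1 θ hθ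
  · have := gen_Exp 1 1 zero_le_one (by simp [L0_Exp]) (dg_Exp h) (fun t ht => by
      have h1 := msq_Exp h t
      have h2 := mul_nonneg ht (sq_nonneg (m_Exp ρ t))
      have h3 := mul_nonneg ht (sub_nonneg.2 h1)
      rw [abs_le]; constructor <;> nlinarith) θ hθ
    rw [one_mul] at this
    exact this
  · obtain ⟨c, c0, c1, e⟩ := mvt_Exp (f := fun x => L_Exp ρ x - x * m_Exp ρ x +
      (1 - ρ ^ 2) * Real.exp (-(2 * θ)) / 2 * x ^ 2) (by simp [L0_Exp])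
      (fun t => (dg_Exp h t).add ((hasDerivAt_pow 2 t).const_mul _)) hθ
    have h1 : Real.cosh c + ρ * Real.sinh c ≤ Real.exp θ := by
      have h2 := Real.sinh_nonneg_iff.2 c0
      have h3 := Real.cosh_add_sinh c
      have h4 := Real.exp_le_exp.2 c1
      have h5 := (abs_lt.1 h).2
      nlinarith
    have h2 : (1 - ρ ^ 2) * Real.exp (-(2 * θ)) ≤ 1 - m_Exp ρ c ^ 2 := by
      rw [one_sub_Exp h, Real.exp_neg, ← div_eq_mul_inv, two_mul, Real.exp_add, ← sq]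
      exact div_le_div_of_nonneg_left hp.le (pow_pos (pos_Exp h c) 2)
        (pow_le_pow_left₀ (pos_Exp h c).le h1 2)
    have h3 := mul_le_mul_of_nonneg_left h2 (mul_nonneg c0 hθ)
    simp only [Nat.cast_ofNat, Nat.add_one_sub_one, pow_one] at e
    change L_Exp ρ θ - θ * m_Exp ρ θ ≤ _
    nlinarith
  · have a1 := gen_Exp (f := fun x => 2 * (m_Exp ρ x * (1 - m_Exp ρ x ^ 2)) +
        2 * (m_Exp (-ρ) x * (1 - m_Exp (-ρ) x ^ 2)))
      (f' := fun x => 2 * ((1 - 3 * m_Exp ρ x ^ 2) * (1 - m_Exp ρ x ^ 2)) +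
        2 * ((1 - 3 * m_Exp (-ρ) x ^ 2) * (1 - m_Exp (-ρ) x ^ 2))) 8 0
      (by norm_num) (by simp only [m0_Exp]; ring)
      (fun t => ((((dm_Exp h t).mul (((dm_Exp h t).pow 2).const_sub 1)).const_mul 2).add
        (((dm_Exp hn t).mul (((dm_Exp hn t).pow 2).const_sub 1)).const_mul 2)).congr_deriv (by
          simp only [Pi.pow_apply, Nat.cast_ofNat, Nat.add_one_sub_one, pow_one]; ring))
      (fun t _ => by
        have h1 := msq_Exp h t
        have h2 := msq_Exp hn t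
        have h3 := sq_nonneg (m_Exp ρ t)
        have h4 := sq_nonneg (m_Exp (-ρ) t)
        generalize m_Exp ρ t ^ 2 = u at h1 h3
        generalize m_Exp (-ρ) t ^ 2 = v at h2 h4
        rw [abs_le]; constructor <;> nlinarith)
    have a2 := gen_Exp (f := fun x => m_Exp ρ x ^ 2 + m_Exp (-ρ) x ^ 2 - 2 * ρ ^ 2) 8 1
      (by norm_num) (by simp only [m0_Exp]; ring)
      (fun t => ((((dm_Exp h t).pow 2).add ((dm_Exp hn t).pow 2)).sub_const
        (2 * ρ ^ 2)).congr_deriv (by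
          simp only [Nat.cast_ofNat, Nat.add_one_sub_one, pow_one]; ring)) a1
    exact gen_Exp (f := fun x => (L_Exp ρ x - x * m_Exp ρ x) +
        (L_Exp (-ρ) x - x * m_Exp (-ρ) x) + (1 - ρ ^ 2) * x ^ 2)
      (f' := fun x => x * (m_Exp ρ x ^ 2 + m_Exp (-ρ) x ^ 2 - 2 * ρ ^ 2)) 8 3
      (by norm_num) (by simp [L0_Exp])
      (fun t => (((dg_Exp h t).add (dg_Exp hn t)).add
        ((hasDerivAt_pow 2 t).const_mul (1 - ρ ^ 2))).congr_deriv (by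
          simp only [Nat.cast_ofNat, Nat.add_one_sub_one, pow_one]; ring))
      (fun t ht => by
        have := mul_le_mul_of_nonneg_left (a2 t ht) ht
        rw [abs_mul, abs_of_nonneg ht]
        exact this.trans (le_of_eq (by ring))) θ hθ

end Pool.Agent.MP_ebf981_lc.PL
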