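import Pool.Agent.MP_ebf981_lc.PL.St

/-! Assembly of the comparison with majority. -/

namespace Pool.Agent.MP_ebf981_lc.PL

open Finset Pool.Agent.MP_ebf981_lc.LN

theorem agree_half (ε : ℝ) (r : ℕ) {n : ℕ} (f : (Fin n → Bool) → Bool) :
    (1 / 2) ^ r * E (fun x => (1 + T ε (fun y => sg (f y)) x) ^ r +
      (1 - T ε (fun y => sg (f y)) x) ^ r) =
    E (fun x => (1 - T ε (fun y => 1 / 2 * 1 + -1 / 2 * sg (f y)) x) ^ r) +
      E (fun x => (1 - T ε (fun y => 1 / 2 * 1 + 1 / 2 * sg (f y)) x) ^ r) := by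
  rw [← E_mul, ← E_add]
  refine E_congr fun x => ?_
  have one : T ε (fun _ => 1) x = 1 := by simpa [T] using T_one ε x
  rw [T_lin ε (1 / 2) (-1 / 2) (fun _ => 1), T_lin ε (1 / 2) (1 / 2) (fun _ => 1), one, mul_add,
    ← mul_pow, ← mul_pow]
  congr 2 <;> ring

theorem T_le_one {ε : ℝ} (h0 : 0 < ε) (h1 : ε < 1 / 2) {n : ℕ} {b : (Fin n → Bool) → ℝ}
    (hb : ∀ y, b y ≤ 1) (x : Fin n → Bool) : T ε b x ≤ 1 := by
  rw [← T_one ε x]
  refine sum_le_sum fun y _ => mul_le_of_le_one_right (prod_nonneg fun j _ => ?_) (hb y)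
  split_ifs <;> linarith

theorem sum_sg {n : ℕ} (y : Fin n → Bool) :
    ∑ j, sg (y j) = 2 * ((univ.filter fun j => y j = true).card : ℝ) - n := by
  have e : ∀ j, sg (y j) = 2 * (if y j = true then 1 else 0) - 1 := fun j => by
    cases y j <;> norm_num [sg]
  simp only [e, sum_sub_distrib, ← mul_sum, sum_boole]
  simp

theorem main_of (hR : ∀ ε : ℝ, 0 < ε → ε < 1 / 2 → ∃ C, 0 ≤ C ∧ Rsse ε C) (hU : SUp) (hT : STail)
    (hC : SCher) (ε : ℝ) (h0 : 0 < ε) (h1 : ε < 1 / 2) : ∃ C : ℕ, ∀ r : ℕ, C ≤ r →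
    ∀ P : (n : ℕ) → ((Fin n → Bool) → Bool) → ℝ,
      (∀ (n : ℕ) (f : (Fin n → Bool) → Bool), P n f = ∑ x : Fin n → Bool,
        ∑ y : Fin r → Fin n → Bool,
          (1/2 : ℝ) ^ n * (∏ i, ∏ j, (if y i j = x j then 1 - ε else ε)) *
          (if ∀ i i', f (y i) = f (y i') then (1 : ℝ) else 0)) →
      ∀ (n k : ℕ) (f : (Fin n → Bool) → Bool), Real.log r ^ 2 ≤ k →
        ((∀ x, f (fun j => !x j) = !f x) ∨
          (univ.filter fun x => f x = true).card = (univ.filter fun x => f x = false).card) →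
        P n f ≤ Real.log r ^ C *
          P k (fun x => decide (k < 2 * (univ.filter fun j => x j = true).card)) := by
  obtain ⟨C0, c0, hR⟩ := hR ε h0 h1
  obtain ⟨C1, c1, hU⟩ := hU ε C0 h0 h1 c0 hR
  obtain ⟨C2, c2, hT⟩ := hT (nu ε) (nu_pos h0 h1)
  have hp := pp_pos h0 h1
  obtain ⟨G, hG⟩ : ∃ G, G = Real.exp (4 / pp ε ^ 2) := ⟨_, rfl⟩
  have G0 : 0 < G := by rw [hG]; positivity
  have p4 : 0 < 4 / pp ε := by positivity
  obtain ⟨M, hM⟩ : ∃ M, M = 4 + 4 / pp ε + 2 * (C1 + C2) + 2 * G := ⟨_, rfl⟩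
  refine ⟨⌈Real.exp M⌉₊, fun r hr P hP n k f hk hf => ?_⟩
  have r1 : Real.exp M ≤ r := (Nat.le_ceil _).trans (by exact_mod_cast hr)
  have r2 : M + 1 ≤ ⌈Real.exp M⌉₊ := (Real.add_one_le_exp M).trans (Nat.le_ceil _)
  have r3 : M + 1 ≤ r := (Real.add_one_le_exp M).trans r1
  have r0 : (0 : ℝ) < r := by linarith
  have l1 : M ≤ Real.log r := (Real.le_log_iff_exp_le r0).2 r1
  have r4 : 3 ≤ r := by exact_mod_cast (show (3 : ℝ) ≤ r by linarith)
  have hf0 : E (fun y => sg (f y)) = 0 := by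
    have : hat (fun y => sg (f y)) ∅ = 0 := by
      rcases hf with hf | hf
      · exact hat_parity (s := -1) (fun x => by rw [hf, sg_not]; ring) (by simp)
      · have e : ∀ x, sg (f x) * chi ∅ x =
            (if f x = true then 1 else 0) - (if f x = false then 1 else 0) := fun x => by
          cases f x <;> simp [sg, chi]
        simp only [hat, E, e, sum_sub_distrib, sum_boole, hf, sub_self, mul_zero]
    simpa [hat, chi] using this
  have up : ∀ c : ℝ, c = 1 / 2 ∨ c = -1 / 2 →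
      E (fun x => (1 - T ε (fun y => 1 / 2 * 1 + c * sg (f y)) x) ^ r) ≤ _ := fun c hc =>
    hU r n _ r4 (fun x => by rcases hc with rfl | rfl <;> cases f x <;> norm_num [sg])
      (by rw [E_add, E_mul, E_mul, E_const, hf0]; norm_num)
  have u1 := up _ (Or.inl rfl)
  have u2 := up _ (Or.inr rfl)
  have key := fun (m : ℕ) (g : (Fin m → Bool) → Bool) =>
    ((hP m g).trans (agree_eq ε g (by omega))).trans (agree_half ε r g)
  rw [key, key]
  obtain ⟨lam, hl⟩ : ∃ lam, lam = Real.log r := ⟨_, rfl⟩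
  have er : Real.exp lam = r := by rw [hl, Real.exp_log r0]
  rw [← hl] at hk l1 u1 u2 ⊢
  have ind : (fun y : Fin k → Bool => 1 / 2 * 1 + -1 / 2 *
      sg (decide (k < 2 * (univ.filter fun j => y j = true).card))) =
      fun y => if ∑ j, sg (y j) ≤ 0 then (1 : ℝ) else 0 := by
    funext y
    rw [sum_sg]
    by_cases h : k < 2 * (univ.filter fun j => y j = true).card
    · have : (k : ℝ) < 2 * ((univ.filter fun j => y j = true).card : ℝ) := by exact_mod_cast h
      rw [if_neg (by linarith), decide_eq_true h]; norm_num [sg]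
    · have : 2 * ((univ.filter fun j => y j = true).card : ℝ) ≤ k := by exact_mod_cast not_lt.1 h
      rw [if_pos (by linarith), decide_eq_false h]; norm_num [sg]
  rw [ind]
  have d1 : E (fun x : Fin k → Bool => Real.exp (-(2 * G)) *
      if √(2 * nu ε * k * lam) ≤ ∑ j, sg (x j) then 1 else 0) ≤
      E (fun x => (1 - T ε (fun y : Fin k → Bool => if ∑ j, sg (y j) ≤ 0 then 1 else 0) x) ^ r) := by
    refine E_mono fun x => ?_
    split_ifs with h
    · have a1 := hC ε h0 h1 k lam x (by linarith) hk h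
      rw [Real.exp_sub, er, ← hG] at a1
      have a2 : G / r ≤ 1 / 2 := by rw [div_le_iff₀ r0]; linarith
      have a3 : 0 ≤ G / r := by positivity
      have a4 : Real.exp (-(2 * (G / r))) ≤ 1 - G / r := by
        rw [Real.exp_neg, inv_le_comm₀ (Real.exp_pos _) (by linarith)]
        refine le_trans ?_ (Real.add_one_le_exp _)
        rw [inv_le_iff_one_le_mul₀ (by linarith)]
        nlinarith
      calc _ = Real.exp (-(2 * (G / r))) ^ r := by
            rw [mul_one, ← Real.exp_nat_mul]; congr 1; field_simp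
        _ ≤ _ := pow_le_pow_left₀ (Real.exp_pos _).le (by linarith) r
    · rw [mul_zero]
      exact pow_nonneg (sub_nonneg.2 (T_le_one h0 h1 (fun y => by split_ifs <;> norm_num) x)) r
  have d2 : 0 ≤ E (fun x => (1 - T ε (fun y : Fin k → Bool => 1 / 2 * 1 + 1 / 2 *
      sg (decide (k < 2 * (univ.filter fun j => y j = true).card))) x) ^ r) :=
    E_nonneg fun x => pow_nonneg (sub_nonneg.2 (T_le_one h0 h1 (fun y => by
      cases decide (k < 2 * (univ.filter fun j => y j = true).card) <;> norm_num [sg]) x)) r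
  rw [E_mul] at d1
  have d3 := (mul_le_mul_of_nonneg_left (hT k lam (by linarith) (by linarith) hk)
    (Real.exp_pos (-(2 * G))).le).trans d1
  have l0 : 0 < lam := by linarith
  have l2 : 1 ≤ Real.log lam := by
    rw [Real.le_log_iff_exp_le l0]
    linarith [Real.exp_one_lt_three]
  have l3 : Real.log (lam + 2) ≤ 2 * Real.log lam := by
    have := Real.log_le_log (by linarith) (show lam + 2 ≤ lam ^ 2 by nlinarith)
    rwa [Real.log_pow, Nat.cast_ofNat] at this
  refine le_trans ?_ (mul_le_mul_of_nonneg_left (d3.trans (le_add_of_nonneg_right d2))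
    (by positivity))
  rw [← Real.exp_log (pow_pos l0 _), Real.log_pow, ← Real.exp_add, ← Real.exp_add]
  have l4 : Real.exp (-(nu ε * lam) + C1 * Real.log (lam + 2)) * Real.exp 1 ≤
      Real.exp (⌈Real.exp M⌉₊ * Real.log lam + (-(2 * G) +
        (-(nu ε * lam) - C2 * Real.log (lam + 2)))) := by
    rw [← Real.exp_add]
    refine Real.exp_le_exp.2 ?_
    have b1 := mul_le_mul_of_nonneg_right r2 (show 0 ≤ Real.log lam by linarith)
    have b2 := mul_le_mul_of_nonneg_left l3 (add_nonneg c1 c2)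
    have b3 := mul_le_mul_of_nonneg_left l2 (show 0 ≤ 5 + 4 / pp ε + 2 * G by linarith)
    generalize (⌈Real.exp M⌉₊ : ℝ) = N at b1 ⊢
    rw [hM] at b1
    linarith
  nlinarith [Real.add_one_le_exp 1, Real.exp_pos (-(nu ε * lam) + C1 * Real.log (lam + 2))]

end Pool.Agent.MP_ebf981_lc.PL
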