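import Pool.Agent.MP_ebf981_lc.PL.St

namespace Pool.Agent.MP_ebf981_lc.PL

open Finset Pool.Agent.MP_ebf981_lc.LN

/-- the potential `Φ` grows in mean along one tilted step from the state `(c, l)` -/
def Go_Ind (ε : ℝ) (G : ℝ → Prop) (Φ : ℝ → ℝ → ℝ) (c l : ℝ) : Prop := ∀ v : ℝ, 0 ≤ v → v ≤ 1 →
  ∃ (q Δ : Bool → Bool → ℝ) (δ : Bool → ℝ), (∀ y, q y true + q y false = 1) ∧
    (∀ y z, q y z = 0 ∨ (q y z = (if y = z then 1 - ε else ε) * Real.exp (-Δ y z) ∧
      Real.exp (δ z) ≤ 1 + v * sg z)) ∧ (∀ y z, G (c + Δ y z)) ∧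
    Φ c l ≤ ∑ i : Bool × Bool, q i.1 i.2 / 2 * Φ (c + Δ i.1 i.2) (l - δ i.2)

theorem real_Ind {ε : ℝ} (h0 : 0 < ε) (h1 : ε < 1 / 2) {G : ℝ → Prop} {Φ : ℝ → ℝ → ℝ} {c l : ℝ}
    (hgo : Go_Ind ε G Φ c l) (al be : Bool → ℝ) (j : Bool → Bool → ℝ) (hj : ∀ y z, 0 ≤ j y z)
    (ih : ∀ y z c l, Real.exp (-l) ≤ al z → G c → Real.exp (-c) * (Φ c l - (1 - be y)) ≤ j y z)
    (a0 : 0 ≤ al false) (a1 : al false ≤ al true) (hl : Real.exp (-l) ≤ (al true + al false) / 2) :
    Real.exp (-c) * (Φ c l - (1 - (be true + be false) / 2)) ≤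
      ((1 - ε) * j true true + ε * j false true + (ε * j true false + (1 - ε) * j false false)) / 2 := by
  have hs : 0 < al true + al false := by linarith [Real.exp_pos (-l)]
  obtain ⟨q, Δ, δ, q1, q2, q3, q4⟩ := hgo ((al true - al false) / (al true + al false))
    (div_nonneg (by linarith) hs.le) ((div_le_one hs).2 (by linarith))
  have key : ∀ y z, q y z * (Real.exp (-c) * (Φ (c + Δ y z) (l - δ z) - (1 - be y))) ≤
      (if y = z then 1 - ε else ε) * j y z := by
    intro y z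
    have hk : 0 ≤ (if y = z then 1 - ε else ε) := by split_ifs <;> linarith
    rcases q2 y z with h | ⟨h, h'⟩
    · rw [h, zero_mul]; exact mul_nonneg hk (hj y z)
    · have e : (al true + al false) / 2 *
          (1 + (al true - al false) / (al true + al false) * sg z) = al z := by
        cases z <;> simp only [sg] <;> field_simp <;> simp <;> ring
      have h2 := ih y z (c + Δ y z) (l - δ z) (by
        rw [neg_sub, sub_eq_neg_add, Real.exp_add, ← e]
        exact mul_le_mul hl h' (Real.exp_pos _).le (by linarith)) (q3 y z)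
      rw [neg_add, Real.exp_add] at h2
      rw [h]
      linarith [mul_le_mul_of_nonneg_left h2 hk]
  have k1 := key true true
  have k2 := key true false
  have k3 := key false true
  have k4 := key false false
  simp only [if_true, Bool.true_eq_false, Bool.false_eq_true, if_false] at k1 k2 k3 k4
  simp only [Fintype.sum_prod_type, Fintype.sum_bool] at q4
  have k5 := mul_le_mul_of_nonneg_left q4 (Real.exp_pos (-c)).le
  have e1 := congrArg (· * (Real.exp (-c) * (1 - be true))) (q1 true)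
  have e2 := congrArg (· * (Real.exp (-c) * (1 - be false))) (q1 false)
  linarith

theorem E_cons_Ind {n : ℕ} (F : (Fin (n + 1) → Bool) → ℝ) :
    E F = (E (fun x => F (Fin.cons true x)) + E (fun x => F (Fin.cons false x))) / 2 := by
  rw [← E_add, E, E, sum_succ, pow_succ]; ring

theorem T_cons_Ind {n : ℕ} (ε : ℝ) (b : (Fin (n + 1) → Bool) → ℝ) (z : Bool) (x : Fin n → Bool) :
    T ε b (Fin.cons z x) =
      (if true = z then 1 - ε else ε) * T ε (fun y => b (Fin.cons true y)) x +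
        (if false = z then 1 - ε else ε) * T ε (fun y => b (Fin.cons false y)) x := by
  simp only [T, sum_succ, ker, Fin.prod_univ_succ, Fin.cons_zero, Fin.cons_succ, mul_sum,
    sum_add_distrib, mul_assoc]

theorem J_Ind {n : ℕ} {ε : ℝ} (h0 : 0 < ε) (h1 : ε < 1 / 2) {a b : (Fin n → Bool) → ℝ}
    (ha : ∀ x, a x = 0 ∨ a x = 1) (hb : ∀ x, 0 ≤ b x ∧ b x ≤ 1) :
    0 ≤ E fun x => a x * T ε b x :=
  E_nonneg fun x => mul_nonneg (by rcases ha x with h | h <;> simp [h])
    (sum_nonneg fun y _ => mul_nonneg (prod_nonneg fun j _ => by split_ifs <;> linarith) (hb y).1)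

theorem main_Ind {ε : ℝ} (h0 : 0 < ε) (h1 : ε < 1 / 2) {G : ℝ → Prop} {Φ : ℝ → ℝ → ℝ}
    (hB : ∀ c l, G c → 0 ≤ c ∧ Φ c l ≤ 1)
    (hC : ∀ c l, G c → 0 ≤ l → Φ c l ≤ 0 ∨ Go_Ind ε G Φ c l) (n : ℕ) :
    ∀ (a b : (Fin n → Bool) → ℝ) (c l : ℝ), (∀ x, a x = 0 ∨ a x = 1) → (∀ x, 0 ≤ b x ∧ b x ≤ 1) →
      Real.exp (-l) ≤ E a → G c →
      Real.exp (-c) * (Φ c l - (1 - E b)) ≤ E fun x => a x * T ε b x := by
  induction n with
  | zero =>
    intro a b c l ha hb hl hc
    have e1 := Real.exp_pos (-l)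
    have e2 : Real.exp (-c) ≤ 1 := Real.exp_le_one_iff.2 (by linarith [(hB c l hc).1])
    simp only [E, T, ker, pow_zero, one_mul, univ_unique, sum_singleton, prod_empty,
      univ_eq_empty] at hl ⊢
    rw [(ha _).resolve_left (e1.trans_le hl).ne', one_mul]
    have e4 := mul_le_mul_of_nonneg_left (hB c l hc).2 (Real.exp_pos (-c)).le
    exact le_trans (by linarith) (mul_le_of_le_one_left (hb _).1 e2)
  | succ n ih =>
    intro a b c l ha hb hl hc
    have a1 : E a ≤ 1 := (E_mono fun x => by rcases ha x with h | h <;> simp [h]).trans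
      (E_const 1).le
    have b1 : E b ≤ 1 := (E_mono fun x => (hb x).2).trans (E_const 1).le
    rcases hC c l hc (by linarith [Real.exp_le_one_iff.1 (hl.trans a1)]) with h | h
    · exact (mul_nonpos_of_nonneg_of_nonpos (Real.exp_pos _).le (by linarith)).trans
        (J_Ind h0 h1 ha hb)
    have a0 : ∀ z, 0 ≤ E fun x => a (Fin.cons z x) := fun z =>
      E_nonneg fun x => by rcases ha (Fin.cons z x) with h | h <;> simp [h]
    have hj : ∀ y z : Bool, 0 ≤ E fun x => a (Fin.cons z x) * T ε (fun w => b (Fin.cons y w)) x :=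
      fun y z => J_Ind h0 h1 (fun _ => ha _) fun _ => hb _
    have ih' : ∀ (y z : Bool) (c l : ℝ), Real.exp (-l) ≤ E (fun x => a (Fin.cons z x)) → G c →
        Real.exp (-c) * (Φ c l - (1 - E fun x => b (Fin.cons y x))) ≤
          E fun x => a (Fin.cons z x) * T ε (fun w => b (Fin.cons y w)) x :=
      fun y z c l => ih _ _ c l (fun _ => ha _) fun _ => hb _
    rw [E_cons_Ind a] at hl
    rw [E_cons_Ind b, E_cons_Ind fun x => a x * T ε b x]
    simp only [T_cons_Ind, mul_add, mul_left_comm (a _), E_add, E_mul, if_true,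
      Bool.true_eq_false, Bool.false_eq_true, if_false]
    rcases le_total (E fun x => a (Fin.cons false x)) (E fun x => a (Fin.cons true x)) with d | d
    · exact real_Ind h0 h1 h _ _ _ hj ih' (a0 _) d hl
    · have := real_Ind h0 h1 h _ _ _ (fun y z => hj (!y) (!z)) (fun y z => ih' (!y) (!z)) (a0 _) d
        (by simp only [Bool.not_true, Bool.not_false]; linarith)
      simp only [Bool.not_true, Bool.not_false] at this
      linarith

theorem sInd (hG : SGF) : SInd := by
  intro ε K μ η S C h0 h1 η0 _ S0 S1 C0 hS hB R hR n a b c l ha hb hl hc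
  obtain ⟨g1, g2, g3, -⟩ := hG
  have hp := pp_pos h0 h1
  have hA := aa_pos h0 h1
  have r0 : 0 < R / η := by positivity
  have g0 : 0 ≤ gF R := by linarith [g2 R, g1 (show -R ≤ R by linarith)]
  have hM : 0 < 2 * (gF R + Real.exp (-(R ^ 2 / 2))) := by positivity
  have he : 0 ≤ C * Real.exp (-(R ^ 2 / 8)) := by positivity
  refine main_Ind h0 h1 (G := fun c => (R / η) ^ 2 / 2 ≤ aa ε * c)
    (Φ := fun c l => (gF R + pot (S * R ^ 3) (C * Real.exp (-(R ^ 2 / 8)))
      (c - l / pp ε - ((R / η) ^ 2 / aa ε + 3 * R * (R / η))) (aa ε * c)) /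
      (2 * (gF R + Real.exp (-(R ^ 2 / 2))))) ?_ ?_ n a b c l ha hb hl hc
  · intro c l hc
    have w0 : 0 < aa ε * c := lt_of_lt_of_le (by positivity) hc
    refine ⟨((mul_pos_iff_of_pos_left hA).1 w0).le, (div_le_one hM).2 ?_⟩
    have := mul_nonneg he w0.le
    have := Real.exp_pos (-(R ^ 2 / 2))
    unfold pot
    linarith [g3 R ((c - l / pp ε - ((R / η) ^ 2 / aa ε + 3 * R * (R / η))) / √(aa ε * c) +
      S * R ^ 3 / (aa ε * c)) hR]
  · intro c l hc l0
    have w0 : 0 < aa ε * c := lt_of_lt_of_le (by positivity) hc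
    rcases lt_or_ge (aa ε * c) ((R / η) ^ 2) with d | d
    · refine Or.inl (div_nonpos_of_nonpos_of_nonneg ?_ hM.le)
      have s0 := Real.sqrt_pos.2 w0
      have s1 : √(aa ε * c) ≤ R / η := Real.sqrt_le_iff.2 ⟨r0.le, d.le⟩
      have s2 : c ≤ (R / η) ^ 2 / aa ε := (le_div_iff₀' hA).2 d.le
      have s3 := div_nonneg l0 hp.le
      have s4 : (c - l / pp ε - ((R / η) ^ 2 / aa ε + 3 * R * (R / η))) / √(aa ε * c) ≤
          -(3 * R) := by
        rw [div_le_iff₀ s0]
        linarith [mul_le_mul_of_nonneg_left s1 (show 0 ≤ 3 * R by linarith)]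
      have s5 : S * R ^ 3 / (aa ε * c) ≤ 2 * R := by
        rw [div_le_iff₀ w0]
        have e : S * R ^ 3 = S * η ^ 2 * (R * (R / η) ^ 2) := by field_simp
        have := mul_le_mul_of_nonneg_right S1 (show 0 ≤ R * (R / η) ^ 2 by positivity)
        have := mul_le_mul_of_nonneg_left hc (show 0 ≤ 2 * R by linarith)
        linarith
      have := mul_nonneg he w0.le
      unfold pot
      linarith [g2 R, g1 (show (c - l / pp ε - ((R / η) ^ 2 / aa ε + 3 * R * (R / η))) /
        √(aa ε * c) + S * R ^ 3 / (aa ε * c) ≤ -R by linarith)]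
    · refine Or.inr fun v v0 v1 => ?_
      obtain ⟨τ, q, Δ, δ, q1, q2, hm⟩ := hS v v0 v1
      obtain ⟨b1, b2⟩ := hB R (c - l / pp ε - ((R / η) ^ 2 / aa ε + 3 * R * (R / η))) _ τ _ _ _
        hR d hm
      refine ⟨q, Δ, δ, q1, q2, fun y z => by have := b1 (y, z); simp only at this ⊢; linarith, ?_⟩
      generalize 2 * (gF R + Real.exp (-(R ^ 2 / 2))) = M at hM ⊢
      simp only [← mul_div_assoc _ _ M, ← sum_div, mul_add, sum_add_distrib, ← sum_mul, hm.one,
        one_mul]
      refine div_le_div_of_nonneg_right (add_le_add_right (b2.trans (le_of_eq ?_)) _) hM.le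
      refine sum_congr rfl fun i _ => ?_
      congr 2
      ring

end Pool.Agent.MP_ebf981_lc.PL
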