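import Pool.Agent.MP_ebf981_lc.PL.St

/-! Reverse small-set expansion from the inductive bound. -/

namespace Pool.Agent.MP_ebf981_lc.PL

open Finset Pool.Agent.MP_ebf981_lc.LN

theorem val_Rsse (hG : SGF) {R W S C β : ℝ} (hR : 1 ≤ R) (hW : 1 ≤ W) (hS : 0 ≤ S)
    (hβ : 1 / 2 ≤ β) (h : 4 * (C + 1) * W ^ 2 ≤ Real.exp (R ^ 2 / 8)) :
    1 / (16 * W) ≤ (gF R + pot (S * R ^ 3) (C * Real.exp (-(R ^ 2 / 8))) 1 W) /
      (2 * (gF R + Real.exp (-(R ^ 2 / 2)))) - (1 - β) := by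
  obtain ⟨mono, -, -, h2, h5⟩ := hG
  have hW0 : 0 < W := by linarith
  have s1 : 1 ≤ √W := Real.one_le_sqrt.2 hW
  have s2 : √W ≤ W := Real.sqrt_le_self_iff.2 (Or.inr hW)
  have g0 : 0 ≤ gF R := le_trans (by simpa using h5 0 le_rfl zero_le_one) (mono (by linarith))
  have g1 : 1 / (2 * W) ≤ gF (1 / √W + S * R ^ 3 / W) := by
    have a1 : 1 / √W ≤ 1 := (div_le_one (by linarith)).2 s1
    have a2 : 1 / W ≤ 1 / √W := one_div_le_one_div_of_le (by linarith) s2
    have a3 := h5 (1 / √W) (by positivity) a1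
    have a4 : gF (1 / √W) ≤ gF (1 / √W + S * R ^ 3 / W) :=
      mono (le_add_of_nonneg_right (by positivity))
    have a5 : 1 / (2 * W) = 1 / W / 2 := by field_simp
    linarith
  have e1 : Real.exp (-(R ^ 2 / 2)) ≤ Real.exp (-(R ^ 2 / 8)) :=
    Real.exp_le_exp.2 (by nlinarith [sq_nonneg R])
  have e0 := Real.exp_pos (-(R ^ 2 / 2))
  have e2 : Real.exp (-(R ^ 2 / 8)) * Real.exp (R ^ 2 / 8) = 1 := by
    rw [← Real.exp_add]; simp
  have e3 := Real.exp_pos (-(R ^ 2 / 8))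
  have M2 := h2 R hR
  unfold pot
  generalize Real.exp (-(R ^ 2 / 2)) = φ at *
  generalize Real.exp (-(R ^ 2 / 8)) = e at *
  generalize gF (1 / √W + S * R ^ 3 / W) = g at *
  have k1 : (C + 1) * e * W ≤ 1 / (4 * W) := by
    rw [le_div_iff₀ (by positivity)]
    nlinarith [mul_le_mul_of_nonneg_left h e3.le]
  have k2 : φ ≤ e * W := e1.trans (le_mul_of_one_le_right e3.le hW)
  have k3 : 1 / (4 * W) ≤ g - C * e * W - φ := by
    have : 1 / (2 * W) = 1 / (4 * W) + 1 / (4 * W) := by field_simp; ring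
    nlinarith
  have k4 : (gF R + (g - C * e * W)) / (2 * (gF R + φ)) =
      1 / 2 + (g - C * e * W - φ) / (2 * (gF R + φ)) := by
    field_simp
    ring
  have k5 : 1 / (16 * W) ≤ (g - C * e * W - φ) / (2 * (gF R + φ)) := by
    calc 1 / (16 * W) = 1 / (4 * W) / 4 := by field_simp; ring
      _ ≤ 1 / (4 * W) / (2 * (gF R + φ)) :=
        div_le_div_of_nonneg_left (by positivity) (by positivity) (by linarith)
      _ ≤ _ := div_le_div_of_nonneg_right k3 (by positivity)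
  rw [k4]
  linarith

theorem clock_Rsse {A C L t W : ℝ} (hA : 1 ≤ A) (hC : 0 ≤ C) (hL : 0 ≤ L) (hW0 : 0 ≤ W)
    (ht : t = 32 * Real.log (L + 2) + 16 * (4096 * (C + 1) * A ^ 2)) (ht0 : 0 ≤ t)
    (hW : W ≤ A * (L + t)) : 4 * (C + 1) * W ^ 2 ≤ Real.exp (t / 8) := by
  have a1 : 1 + t ≤ 32 * Real.exp (t / 32) := by
    have := Real.add_one_le_exp (t / 32)
    linarith
  have a2 : W ≤ A * ((L + 2) * (32 * Real.exp (t / 32))) := by
    refine hW.trans (mul_le_mul_of_nonneg_left ?_ (by linarith))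
    exact le_trans (by nlinarith) (mul_le_mul_of_nonneg_left a1 (by linarith))
  have a3 := pow_le_pow_left₀ hW0 a2 2
  have a4 : Real.exp (t / 32) ^ 2 = Real.exp (t / 16) := by
    rw [← Real.exp_nat_mul]; congr 1; push_cast; ring
  have a5 : Real.exp (t / 16) = (L + 2) ^ 2 * Real.exp (4096 * (C + 1) * A ^ 2) := by
    rw [show t / 16 = (2 : ℕ) * Real.log (L + 2) + 4096 * (C + 1) * A ^ 2 by
      rw [ht]; push_cast; ring, Real.exp_add, Real.exp_nat_mul, Real.exp_log (by linarith)]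
  have a6 : 4096 * (C + 1) * A ^ 2 ≤ Real.exp (4096 * (C + 1) * A ^ 2) := by
    have := Real.add_one_le_exp (4096 * (C + 1) * A ^ 2)
    linarith
  have a7 : Real.exp (t / 8) = Real.exp (t / 16) * Real.exp (t / 16) := by
    rw [← Real.exp_add]; congr 1; ring
  calc 4 * (C + 1) * W ^ 2 ≤ 4 * (C + 1) * (A * ((L + 2) * (32 * Real.exp (t / 32)))) ^ 2 :=
        mul_le_mul_of_nonneg_left a3 (by positivity)
    _ = (L + 2) ^ 2 * (4096 * (C + 1) * A ^ 2) * Real.exp (t / 16) := by rw [← a4]; ring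
    _ ≤ (L + 2) ^ 2 * Real.exp (4096 * (C + 1) * A ^ 2) * Real.exp (t / 16) := by gcongr
    _ = _ := by rw [a7, ← a5]

theorem sRsse (hG : SGF) : SRsse := by
  intro ε η S C h0 h1 η0 η1 hS hC hI
  have hp := pp_pos h0 h1
  have ha := aa_pos h0 h1
  set c2 : ℝ := 1 / (η ^ 2 * aa ε) + 3 / η with hc2
  have c0 : 0 < c2 := by positivity
  set A : ℝ := aa ε / pp ε + aa ε * c2 + aa ε + 1 with hA
  have A1 : 1 ≤ A := le_add_of_nonneg_left (by positivity)
  set B : ℝ := 4096 * (C + 1) * A ^ 2 with hB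
  have B1 : 1 ≤ B := by nlinarith [one_le_pow₀ (n := 2) A1, mul_nonneg hC (sq_nonneg A)]
  refine ⟨(c2 + 1 / 8) * (32 + 32 * B) + 32, by positivity, fun n a b L h2 h3 hL h4 h5 => ?_⟩
  have lg : 1 / 2 ≤ Real.log (L + 2) :=
    le_trans (by linarith [Real.log_two_gt_d9]) (Real.log_le_log two_pos (by linarith))
  set t : ℝ := 32 * Real.log (L + 2) + 16 * B with ht
  have t1 : 1 ≤ t := by linarith
  have R1 : 1 ≤ √t := Real.one_le_sqrt.2 t1
  have R2 : √t ^ 2 = t := Real.sq_sqrt (by linarith)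
  have x0 : (√t / η) ^ 2 / aa ε + 3 * √t * (√t / η) = c2 * t := by
    rw [div_pow, show 3 * √t * (√t / η) = 3 * √t ^ 2 / η by ring, R2, hc2]
    field_simp
  have W0 : (√t / η) ^ 2 ≤ aa ε * (L / pp ε + c2 * t + 1) := by
    rw [← x0, mul_add, mul_add, mul_add, mul_div_cancel₀ _ ha.ne']
    have : 0 ≤ aa ε * (L / pp ε) := by positivity
    have : 0 ≤ aa ε * (3 * √t * (√t / η)) := by positivity
    linarith
  have W1 : 1 ≤ aa ε * (L / pp ε + c2 * t + 1) :=
    le_trans (one_le_pow₀ ((one_le_div η0).2 (η1.trans R1))) W0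
  have W2 : aa ε * (L / pp ε + c2 * t + 1) ≤ A * (L + t) := by
    have e : A * (L + t) - aa ε * (L / pp ε + c2 * t + 1) =
        (aa ε * c2 + aa ε + 1) * L + aa ε / pp ε * t + aa ε * (t - 1) + t := by
      rw [hA]; ring
    have : 0 ≤ aa ε * (t - 1) := mul_nonneg ha.le (by linarith)
    have : 0 ≤ (aa ε * c2 + aa ε + 1) * L + aa ε / pp ε * t := by positivity
    linarith
  have hc := clock_Rsse A1 hC hL (by linarith) ht (by linarith) W2
  have hv := val_Rsse hG R1 W1 hS h5 (by rwa [R2])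
  have hJ := hI √t R1 n a b (L / pp ε + c2 * t + 1) L h2 h3 h4 (by
    have : 0 ≤ (√t / η) ^ 2 := sq_nonneg _
    linarith)
  rw [x0, show L / pp ε + c2 * t + 1 - L / pp ε - c2 * t = 1 by ring] at hJ
  refine le_trans ?_ ((mul_le_mul_of_nonneg_left hv (Real.exp_pos _).le).trans hJ)
  generalize aa ε * (L / pp ε + c2 * t + 1) = W at *
  have k1 : 16 * W ≤ Real.exp (t / 8 + 15) := by
    have a0 : W ≤ W ^ 2 := le_self_pow₀ W1 two_ne_zero
    have a1 : W ≤ Real.exp (t / 8) :=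
      (a0.trans (le_mul_of_one_le_left (sq_nonneg W) (by linarith))).trans hc
    have a2 : 16 ≤ Real.exp 15 := by linarith [Real.add_one_le_exp 15]
    rw [Real.exp_add, mul_comm]
    exact mul_le_mul a1 a2 (by norm_num) (Real.exp_pos _).le
  have k2 : Real.exp (-(t / 8 + 15)) ≤ 1 / (16 * W) := by
    rw [Real.exp_neg, ← one_div]
    exact one_div_le_one_div_of_le (by linarith) k1
  refine le_trans ?_ (mul_le_mul_of_nonneg_left k2 (Real.exp_pos _).le)
  rw [← Real.exp_add]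
  refine Real.exp_le_exp.2 ?_
  have k3 : t ≤ (32 + 32 * B) * Real.log (L + 2) := by
    have := mul_le_mul_of_nonneg_left lg (show 0 ≤ B by linarith)
    linarith
  have k4 := mul_le_mul_of_nonneg_left k3 (show 0 ≤ c2 + 1 / 8 by positivity)
  linarith

end Pool.Agent.MP_ebf981_lc.PL
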