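import Pool.Agent.MP_ebf981_lc.PL.St

/-! One coordinate of the tilted coupling. -/

namespace Pool.Agent.MP_ebf981_lc.PL

open Finset Pool.Agent.MP_ebf981_lc.LN

theorem mono_Step {K μ K' μ' τ : ℝ} {π ξ D : Bool × Bool → ℝ} (h : Mom K μ τ π ξ D)
    (hK : K ≤ K') (hμ : μ' ≤ μ) : Mom K' μ' τ π ξ D := by
  have h0 := h.t0
  exact ⟨h0, h.t1, h.pos, h.one, fun i => (h.bx i).trans (by gcongr),
    fun i => (h.bd i).trans (by gcongr), le_trans (by gcongr) h.drift,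
    h.clock.trans (by gcongr), h.cross.trans (by gcongr), le_trans (by gcongr) h.down⟩

theorem one_Step {π ξ D : Bool × Bool → ℝ} (h1 : ∀ i, 0 ≤ π i) (h2 : ∑ i, π i = 1)
    (h3 : 0 < ∑ i, π i * ξ i) (h4 : 0 < -∑ i, π i * D i) :
    ∃ K μ : ℝ, 0 < μ ∧ Mom K μ 1 π ξ D := by
  have a1 : 0 ≤ ∑ i, |ξ i| := sum_nonneg fun _ _ => abs_nonneg _
  have a2 : 0 ≤ ∑ i, |D i| := sum_nonneg fun _ _ => abs_nonneg _
  have a3 := abs_nonneg (∑ i, π i * (ξ i ^ 2 + D i))
  have a4 := abs_nonneg (∑ i, π i * (ξ i * D i))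
  refine ⟨∑ i, |ξ i| + ∑ i, |D i| + |∑ i, π i * (ξ i ^ 2 + D i)| + |∑ i, π i * (ξ i * D i)|, _,
    lt_min h3 h4, zero_le_one, le_rfl, h1, h2, fun i => ?_, fun i => ?_, ?_, ?_, ?_, ?_⟩
  · have := single_le_sum (f := fun i => |ξ i|) (fun _ _ => abs_nonneg _) (mem_univ i)
    linarith
  · have := single_le_sum (f := fun i => |D i|) (fun _ _ => abs_nonneg _) (mem_univ i)
    linarith
  · rw [one_pow, mul_one]
    exact min_le_left _ _
  · linarith
  · linarith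
  · rw [one_pow, mul_one]
    exact min_le_right _ _

theorem scale_Step {K μ θ θ₀ : ℝ} {π ξ D : Bool × Bool → ℝ} (hK : 0 ≤ K) (hμ : 0 ≤ μ)
    (h0 : 0 ≤ θ) (h1 : θ ≤ θ₀) (h2 : 1 ≤ θ₀) (pos : ∀ i, 0 ≤ π i) (one : ∑ i, π i = 1)
    (bx : ∀ i, |ξ i| ≤ K * θ) (bd : ∀ i, |D i| ≤ K * θ) (drift : μ * θ ^ 4 ≤ ∑ i, π i * ξ i)
    (clock : |∑ i, π i * (ξ i ^ 2 + D i)| ≤ K * θ ^ 4)
    (cross : |∑ i, π i * (ξ i * D i)| ≤ K * θ ^ 3) (down : μ * θ ^ 2 ≤ -∑ i, π i * D i) :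
    Mom (K * θ₀ ^ 4) μ (θ / θ₀) π ξ D := by
  have h3 : 0 < θ₀ := by linarith
  have t0 : 0 ≤ θ / θ₀ := by positivity
  have lo : θ / θ₀ ≤ θ := div_le_self h0 h2
  have up : ∀ j : ℕ, j ≤ 4 → K * θ ^ j ≤ K * θ₀ ^ 4 * (θ / θ₀) ^ j := fun j hj => by
    have e : θ ^ j = θ₀ ^ j * (θ / θ₀) ^ j := by rw [← mul_pow, mul_div_cancel₀ _ h3.ne']
    rw [e, ← mul_assoc]
    gcongr
  have up1 : K * θ ≤ K * θ₀ ^ 4 * (θ / θ₀) := by simpa using up 1 (by norm_num)
  exact ⟨t0, (div_le_one h3).2 h1, pos, one, fun i => (bx i).trans up1,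
    fun i => (bd i).trans up1, le_trans (by gcongr) drift, clock.trans (up 4 le_rfl),
    cross.trans (up 3 (by norm_num)), le_trans (by gcongr) down⟩

theorem tilt_Step {θ θ₀ μ ρ p a c : ℝ} (q : Bool → Bool → ℝ) (L m : Bool → ℝ) (ha : 0 < a)
    (hap : a * p = 2 * ρ ^ 2) (hρ : |ρ| < 1) (hμ : 0 ≤ μ) (h0 : 0 ≤ θ) (h1 : θ ≤ θ₀)
    (h2 : 1 ≤ θ₀) (pos : ∀ y z, 0 ≤ q y z) (one : ∀ y, q y true + q y false = 1)
    (hm : ∀ y, q y true - q y false = m y) (e1 : ∀ y, |L y| ≤ θ) (e2 : ∀ y, |L y - c| ≤ 2 * θ)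
    (e3 : ∀ y, |L y - c - ρ * sg y * θ| ≤ 3 * θ ^ 3) (e4 : ∀ y, |L y - θ * m y| ≤ θ ^ 2)
    (e5 : ∀ y, a * (L y - θ * m y) ≤ -(μ * θ ^ 2))
    (e6 : |L true - θ * m true + (L false - θ * m false) + p * θ ^ 2| ≤ 8 * θ ^ 4)
    (e7 : μ * θ ^ 4 ≤ (L true + L false) / 2 - c) :
    Mom ((9 + 4 * a) * θ₀ ^ 4) μ (θ / θ₀) (fun i => q i.1 i.2 / 2) (fun i => L i.1 - c)
      fun i => a * (L i.1 - θ * sg i.2) := by
  have qt : ∀ y, q y true = (1 + m y) / 2 := fun y => by linarith [one y, hm y]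
  have qf : ∀ y, q y false = (1 - m y) / 2 := fun y => by linarith [one y, hm y]
  have st : sg true = 1 := rfl
  have sf : sg false = -1 := rfl
  have sa : ∀ y, |sg y| = 1 := fun y => by cases y <;> simp [st, sf]
  have s2 : ∀ y, sg y ^ 2 = 1 := fun y => by rw [← sq_abs, sa, one_pow]
  have sq9 : ∀ y, |(L y - c) ^ 2 - ρ ^ 2 * θ ^ 2| ≤ 9 * θ ^ 4 := fun y => by
    have e : (L y - c) ^ 2 - ρ ^ 2 * θ ^ 2 =
        (L y - c - ρ * sg y * θ) * (L y - c + ρ * sg y * θ) := by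
      linear_combination (ρ ^ 2 * θ ^ 2) * s2 y
    have b : |L y - c + ρ * sg y * θ| ≤ 3 * θ := by
      refine (abs_add_le _ _).trans ?_
      rw [abs_mul, abs_mul, sa, mul_one, abs_of_nonneg h0]
      nlinarith [e2 y]
    rw [e, abs_mul]
    exact (mul_le_mul (e3 y) b (abs_nonneg _) (by positivity)).trans (le_of_eq (by ring))
  have cr : ∀ y, |(L y - c) * (L y - θ * m y)| ≤ 2 * θ ^ 3 := fun y => by
    rw [abs_mul]
    exact (mul_le_mul (e2 y) (e4 y) (abs_nonneg _) (by positivity)).trans (le_of_eq (by ring))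
  refine scale_Step (by positivity) hμ h0 h1 h2 (fun i => by have := pos i.1 i.2; positivity)
    ?_ (fun i => (e2 i.1).trans (by nlinarith [mul_nonneg ha.le h0])) (fun i => ?_) ?_ ?_ ?_ ?_
  · simp only [Fintype.sum_prod_type, Fintype.sum_bool, qt, qf]
    ring
  · have b : |L i.1 - θ * sg i.2| ≤ 2 * θ := by
      refine (abs_sub _ _).trans ?_
      rw [abs_mul, sa, mul_one, abs_of_nonneg h0]
      linarith [e1 i.1]
    rw [abs_mul, abs_of_pos ha]
    nlinarith [mul_le_mul_of_nonneg_left b ha.le, mul_nonneg ha.le h0]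
  · simp only [Fintype.sum_prod_type, Fintype.sum_bool, qt, qf]
    linarith
  · have b1 := abs_le.1 (sq9 true)
    have b2 := abs_le.1 (sq9 false)
    have b3 := abs_le.1 e6
    have b4 := mul_le_mul_of_nonneg_left b3.1 ha.le
    have b5 := mul_le_mul_of_nonneg_left b3.2 ha.le
    have b6 : a * (p * θ ^ 2) = 2 * (ρ ^ 2 * θ ^ 2) := by rw [← mul_assoc, hap, mul_assoc]
    simp only [Fintype.sum_prod_type, Fintype.sum_bool, qt, qf, st, sf]
    rw [abs_le]
    constructor <;> linarith [b1.1, b1.2, b2.1, b2.2]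
  · have b1 := abs_le.1 (cr true)
    have b2 := abs_le.1 (cr false)
    have b3 := mul_le_mul_of_nonneg_left b1.1 ha.le
    have b4 := mul_le_mul_of_nonneg_left b1.2 ha.le
    have b5 := mul_le_mul_of_nonneg_left b2.1 ha.le
    have b6 := mul_le_mul_of_nonneg_left b2.2 ha.le
    have b7 : 0 ≤ θ ^ 3 := by positivity
    have b8 := mul_nonneg ha.le b7
    simp only [Fintype.sum_prod_type, Fintype.sum_bool, qt, qf, st, sf]
    rw [abs_le]
    constructor <;> linarith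
  · simp only [Fintype.sum_prod_type, Fintype.sum_bool, qt, qf, st, sf]
    linarith [e5 true, e5 false]

/-- the conclusion of `Step` for one bias -/
def At_Step (ε K μ v : ℝ) : Prop :=
  ∃ (τ : ℝ) (q Δ : Bool → Bool → ℝ) (δ : Bool → ℝ), (∀ y, q y true + q y false = 1) ∧
    (∀ y z, q y z = 0 ∨ (q y z = (if y = z then 1 - ε else ε) * Real.exp (-Δ y z) ∧
      Real.exp (δ z) ≤ 1 + v * sg z)) ∧
    Mom K μ τ (fun i => q i.1 i.2 / 2) (fun i => Δ i.1 i.2 + δ i.2 / pp ε)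
      (fun i => aa ε * Δ i.1 i.2)

theorem big_Step {ε : ℝ} (h0 : 0 < ε) (h1 : ε < 1 / 2) : ∃ K μ : ℝ, 0 < μ ∧
    ∀ v, 2 * Real.exp (-((1 - 2 * ε) ^ 2 / 10)) - 1 ≤ v → At_Step ε K μ v := by
  have hp := pp_pos h0 h1
  have ha := aa_pos h0 h1
  have h2 : 0 < 1 - ε := by linarith
  let q : Bool → Bool → ℝ := fun _ z => if z then 1 else 0
  let Δ : Bool → Bool → ℝ := fun y z => Real.log (if y = z then 1 - ε else ε)
  let δ : Bool → ℝ := fun _ => Real.log 2 - (1 - 2 * ε) ^ 2 / 10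
  obtain ⟨K, μ, hμ, hM⟩ := one_Step (π := fun i => q i.1 i.2 / 2)
    (ξ := fun i => Δ i.1 i.2 + δ i.2 / pp ε) (D := fun i => aa ε * Δ i.1 i.2)
    (fun i => by simp only [q]; positivity)
    (by simp [Fintype.sum_prod_type, q])
    (by
      have e1 : Real.log (pp ε) = 2 * Real.log 2 + Real.log ε + Real.log (1 - ε) := by
        rw [pp, Real.log_mul (by positivity) h2.ne', Real.log_mul (by norm_num) h0.ne',
          show (4 : ℝ) = 2 ^ 2 by norm_num, Real.log_pow]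
        norm_num
      have e2 := Real.one_sub_inv_le_log_of_pos hp
      have e3 := Real.log_two_gt_d9
      have e4 : (pp ε)⁻¹ - 1 = (1 - 2 * ε) ^ 2 * (pp ε)⁻¹ := by
        field_simp
        rw [pp_eq]
        ring
      have e5 : 0 < (1 - 2 * ε) ^ 2 * (pp ε)⁻¹ := mul_pos (by nlinarith) (inv_pos.2 hp)
      have e6 : Real.log 2 * ((pp ε)⁻¹ - 1) = Real.log 2 * ((1 - 2 * ε) ^ 2 * (pp ε)⁻¹) := by
        rw [e4]
      have e7 := mul_lt_mul_of_pos_right e3 e5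
      simp only [Fintype.sum_prod_type, Fintype.sum_bool, q, Δ, δ, div_eq_mul_inv _ (pp ε)]
      norm_num
      linarith)
    (by
      have e1 := mul_neg_of_pos_of_neg ha (Real.log_neg h0 (by linarith))
      have e2 := mul_neg_of_pos_of_neg ha (Real.log_neg h2 (by linarith))
      simp only [Fintype.sum_prod_type, Fintype.sum_bool, q, Δ]
      norm_num
      linarith)
  refine ⟨K, μ, hμ, fun v hv => ⟨1, q, Δ, δ, fun y => by simp [q], fun y z => ?_, hM⟩⟩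
  cases z
  · exact Or.inl rfl
  · refine Or.inr ⟨?_, ?_⟩
    · have : 0 < (if y = true then 1 - ε else ε) := by split_ifs <;> assumption
      simp only [q, Δ, if_true]
      rw [Real.exp_neg, Real.exp_log this, mul_inv_cancel₀ this.ne']
    · simp only [δ, sg, if_true]
      rw [sub_eq_add_neg, Real.exp_add, Real.exp_log two_pos]
      linarith

theorem small_Step (hD : SDrift) (hE : SExp) {ε : ℝ} (h0 : 0 < ε) (h1 : ε < 1 / 2) {v₀ : ℝ}
    (hv : v₀ < 1) : ∃ K μ : ℝ, 0 < μ ∧ ∀ v, 0 ≤ v → v ≤ v₀ → At_Step ε K μ v := by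
  have hp := pp_pos h0 h1
  have ha := aa_pos h0 h1
  have hpe := pp_eq ε
  set ρ := 1 - 2 * ε with hρ
  have hρ1 : |ρ| < 1 := abs_lt.2 ⟨by linarith, by linarith⟩
  set θ₀ := max 1 (Real.log ((1 + v₀) / (1 - v₀)) / (2 * pp ε)) with hθ₀
  obtain ⟨μ, hμ, hd⟩ := hD (pp ε) θ₀ hp (pp_lt h1)
  have hν : 0 < aa ε * (pp ε * Real.exp (-(2 * θ₀)) / 2) := by positivity
  refine ⟨(9 + 4 * aa ε) * θ₀ ^ 4, _, lt_min hμ hν, fun v v0 v1 => ?_⟩
  have v2 : 0 < 1 - v := by linarith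
  have v3 : 1 ≤ (1 + v) / (1 - v) := (one_le_div v2).2 (by linarith)
  obtain ⟨θ, hθ⟩ : ∃ θ, θ = Real.log ((1 + v) / (1 - v)) / (2 * pp ε) := ⟨_, rfl⟩
  have t0 : 0 ≤ θ := hθ ▸ div_nonneg (Real.log_nonneg v3) (by positivity)
  have t1 : θ ≤ θ₀ := by
    refine le_max_of_le_right ?_
    rw [hθ]
    gcongr
    linarith
  have hw : Real.exp (pp ε * θ) * Real.exp (pp ε * θ) * (1 - v) = 1 + v := by
    rw [← Real.exp_add, show pp ε * θ + pp ε * θ = Real.log ((1 + v) / (1 - v)) by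
      rw [hθ]; field_simp; ring, Real.exp_log (by linarith), div_mul_cancel₀ _ v2.ne']
  have st : sg true = 1 := rfl
  have sf : sg false = -1 := rfl
  have hr : ∀ y, |ρ * sg y| < 1 := fun y => by cases y <;> simpa [st, sf] using hρ1
  have hr2 : ∀ y, 1 - (ρ * sg y) ^ 2 = pp ε := fun y => by
    cases y <;> simp [st, sf, hpe]
  have hN : ∀ y, 0 < Real.cosh θ + ρ * sg y * Real.sinh θ := fun y => by
    have b1 := Real.sinh_lt_cosh θ
    have b2 := Real.sinh_nonneg_iff.2 t0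
    nlinarith [mul_nonneg (by linarith [(abs_lt.1 (hr y)).1] : 0 ≤ ρ * sg y + 1) b2]
  let L : Bool → ℝ := fun y => Real.log (Real.cosh θ + ρ * sg y * Real.sinh θ)
  let m : Bool → ℝ := fun y =>
    (Real.sinh θ + ρ * sg y * Real.cosh θ) / (Real.cosh θ + ρ * sg y * Real.sinh θ)
  let q : Bool → Bool → ℝ := fun y z =>
    (if y = z then 1 - ε else ε) * Real.exp (-(L y - θ * sg z))
  have hq : ∀ y z, q y z = (if y = z then 1 - ε else ε) * Real.exp (θ * sg z) /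
      (Real.cosh θ + ρ * sg y * Real.sinh θ) := fun y z => by
    simp only [q, L]
    rw [neg_sub, Real.exp_sub, Real.exp_log (hN y), mul_div_assoc]
  have one : ∀ y, q y true + q y false = 1 := fun y => by
    rw [hq, hq, ← add_div, div_eq_one_iff_eq (hN y).ne', Real.cosh_eq, Real.sinh_eq]
    cases y <;> simp [st, sf, hρ] <;> ring
  have hm : ∀ y, q y true - q y false = m y := fun y => by
    rw [hq, hq, ← sub_div]
    congr 1
    rw [Real.cosh_eq, Real.sinh_eq]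
    cases y <;> simp [st, sf, hρ] <;> ring
  have hx := fun y => hE (ρ * sg y) θ (hr y) t0
  simp only [hr2] at hx
  have hM := tilt_Step (θ := θ) (θ₀ := θ₀) (ρ := ρ) (p := pp ε) (a := aa ε)
    (μ := min μ (aa ε * (pp ε * Real.exp (-(2 * θ₀)) / 2)))
    (c := Real.log (Real.cosh (pp ε * θ)) / pp ε) q L m ha
    (by rw [aa, div_mul_cancel₀ _ hp.ne']) hρ1 (lt_min hμ hν).le t0 t1 (le_max_left _ _)
    (fun y z => mul_nonneg (by split_ifs <;> linarith) (Real.exp_pos _).le) one hm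
    (fun y => (hx y).1) (fun y => (hx y).2.1) (fun y => (hx y).2.2.1) (fun y => (hx y).2.2.2.1)
    (fun y => by
      refine (mul_le_mul_of_nonneg_left (hx y).2.2.2.2.1 ha.le).trans ?_
      rw [mul_neg, neg_le_neg_iff, ← mul_assoc]
      refine mul_le_mul_of_nonneg_right ((min_le_right _ _).trans ?_) (sq_nonneg θ)
      gcongr)
    (by
      have := (hx true).2.2.2.2.2
      simpa only [L, m, st, sf, mul_one, mul_neg, neg_mul, ← sub_eq_add_neg] using this)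
    (by
      have e : L true + L false = Real.log (1 + pp ε * Real.sinh θ ^ 2) := by
        simp only [L]
        rw [← Real.log_mul (hN true).ne' (hN false).ne', st, sf, hpe]
        congr 1
        linear_combination Real.cosh_sq θ
      rw [e]
      exact le_trans (mul_le_mul_of_nonneg_right (min_le_left _ _) (by positivity)) (hd θ t0 t1))
  refine ⟨θ / θ₀, q, fun y z => L y - θ * sg z,
    fun z => pp ε * θ * sg z - Real.log (Real.cosh (pp ε * θ)), one,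
    fun y z => Or.inr ⟨rfl, le_of_eq ?_⟩, ?_⟩
  · have hc := Real.cosh_pos (pp ε * θ)
    have hw0 := Real.exp_pos (pp ε * θ)
    rw [Real.exp_sub, Real.exp_log hc, div_eq_iff hc.ne', Real.cosh_eq]
    cases z
    · rw [sf, mul_neg_one, Real.exp_neg]
      field_simp
      linear_combination -hw
    · rw [st, mul_one, Real.exp_neg]
      field_simp
      linear_combination hw
  · convert hM using 2 with i
    field_simp
    ring

theorem sStep (hD : SDrift) (hE : SExp) : SStep := by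
  intro ε h0 h1
  obtain ⟨K₁, μ₁, m1, b1⟩ := big_Step h0 h1
  obtain ⟨K₂, μ₂, m2, b2⟩ := small_Step hD hE h0 h1
    (v₀ := 2 * Real.exp (-((1 - 2 * ε) ^ 2 / 10)) - 1) (by
      have : Real.exp (-((1 - 2 * ε) ^ 2 / 10)) < 1 := Real.exp_lt_one_iff.2 (by nlinarith)
      linarith)
  refine ⟨max 1 (max K₁ K₂), min 1 (min μ₁ μ₂), le_max_left _ _, lt_min one_pos (lt_min m1 m2),
    min_le_left _ _, fun v v0 _ => ?_⟩
  rcases le_total v (2 * Real.exp (-((1 - 2 * ε) ^ 2 / 10)) - 1) with h | h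
  · obtain ⟨τ, q, Δ, δ, a1, a2, a3⟩ := b2 v v0 h
    exact ⟨τ, q, Δ, δ, a1, a2, mono_Step a3 (le_max_of_le_right (le_max_right _ _))
      (min_le_of_right_le (min_le_right _ _))⟩
  · obtain ⟨τ, q, Δ, δ, a1, a2, a3⟩ := b1 v h
    exact ⟨τ, q, Δ, δ, a1, a2, mono_Step a3 (le_max_of_le_right (le_max_left _ _))
      (min_le_of_right_le (min_le_left _ _))⟩

end Pool.Agent.MP_ebf981_lc.PL
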