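import Pool.Agent.MP_ebf981_lc.PL.St

/-! A lower bound for the binomial tail. -/

namespace Pool.Agent.MP_ebf981_lc.PL

open Finset Pool.Agent.MP_ebf981_lc.LN

theorem cnt_Tail (n : ℕ) (φ : ℝ → ℝ) : ∑ x : Fin n → Bool, φ (∑ j, sg (x j))
    = ∑ i ∈ range (n + 1), (n.choose i : ℝ) * φ (2 * i - n) := by
  have h := Finset.sum_powerset_apply_card (fun i : ℕ => φ (2 * i - n))
    (x := (univ : Finset (Fin n)))
  simp only [card_univ, Fintype.card_fin, nsmul_eq_mul, powerset_univ] at h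
  rw [← h]
  refine sum_nbij' (fun x => univ.filter fun j => x j = true) (fun S j => decide (j ∈ S))
    (by simp) (by simp) (fun x _ => by ext j; simp) (fun S _ => by ext j; simp) fun x _ => ?_
  have e : ∀ j, sg (x j) = 2 * (if x j = true then 1 else 0) - 1 := fun j => by
    unfold sg; split_ifs <;> norm_num
  simp only [e, sum_sub_distrib, ← mul_sum, sum_boole, sum_const, card_univ, Fintype.card_fin,
    nsmul_eq_mul, mul_one]

theorem cb_Tail (m : ℕ) : 16 ^ (m + 1) ≤ 4 * (m + 1) * Nat.centralBinom (m + 1) ^ 2 := by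
  induction m with
  | zero => decide
  | succ m ih =>
    have h := Nat.succ_mul_centralBinom_succ (m + 1)
    generalize Nat.centralBinom (m + 1 + 1) = b at h ⊢
    generalize Nat.centralBinom (m + 1) = a at h ih
    rw [pow_succ 16 (m + 1)]
    generalize 16 ^ (m + 1) = c at ih ⊢
    refine Nat.le_of_mul_le_mul_left (c := (m + 1) * (m + 2)) ?_ (by positivity)
    have h2 : (m + 1) * (m + 2) * (4 * (m + 1 + 1) * b ^ 2)
        = 4 * (2 * m + 3) ^ 2 * (4 * (m + 1) * a ^ 2) := by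
      have : (m + 1) * (m + 2) * (4 * (m + 1 + 1) * b ^ 2)
        = 4 * (m + 1) * ((m + 1 + 1) * b) ^ 2 := by ring
      rw [this, h]; ring
    rw [h2]
    calc (m + 1) * (m + 2) * (c * 16) ≤ 4 * (2 * m + 3) ^ 2 * c := by nlinarith [Nat.zero_le c]
      _ ≤ _ := Nat.mul_le_mul_left _ ih

theorem mid_Tail {n : ℕ} (hn : 1 ≤ n) : 4 ^ n ≤ 4 * n * n.choose (n / 2) ^ 2 := by
  obtain ⟨m, rfl | rfl⟩ := Nat.even_or_odd' n
  · obtain ⟨k, rfl⟩ := Nat.exists_eq_add_of_le' (show 1 ≤ m by omega)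
    have := cb_Tail k
    rw [Nat.mul_div_cancel_left _ two_pos, ← Nat.centralBinom_eq_two_mul_choose, pow_mul]
    exact this.trans (Nat.mul_le_mul_right _ (by omega))
  · have h := cb_Tail m
    have e : Nat.centralBinom (m + 1) = 2 * (2 * m + 1).choose m := by
      rw [Nat.centralBinom_eq_two_mul_choose, show 2 * (m + 1) = 2 * m + 1 + 1 by ring,
        Nat.choose_succ_succ', Nat.choose_symm_half, ← two_mul]
    rw [show (2 * m + 1) / 2 = m by omega, pow_succ, pow_mul]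
    rw [e, pow_succ] at h
    generalize (2 * m + 1).choose m = a at h ⊢
    norm_num at h ⊢
    nlinarith [Nat.zero_le (a ^ 2), Nat.zero_le (m * a ^ 2)]

theorem mid'_Tail {n : ℕ} (hn : 1 ≤ n) : 1 ≤ 2 * √n * ((1 / 2 : ℝ) ^ n * n.choose (n / 2)) := by
  have h : (4 : ℝ) ^ n ≤ 4 * n * (n.choose (n / 2) : ℝ) ^ 2 := by exact_mod_cast mid_Tail hn
  refine (pow_le_pow_iff_left₀ zero_le_one (by positivity) two_ne_zero).1 ?_
  have e : ((1 / 2 : ℝ) ^ n) ^ 2 * 4 ^ n = 1 := by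
    rw [← pow_mul, mul_comm n, pow_mul, ← mul_pow]; norm_num
  rw [mul_pow, mul_pow, mul_pow, Real.sq_sqrt (Nat.cast_nonneg _)]
  nlinarith [mul_le_mul_of_nonneg_left h (sq_nonneg ((1 / 2 : ℝ) ^ n))]

theorem rat_Tail {x : ℝ} (h0 : 0 ≤ x) (h1 : x ≤ 1 / 2) :
    1 + x ≤ (1 - x) * Real.exp (2 * x + 4 * x ^ 3) := by
  have h := Real.quadratic_le_exp_of_nonneg (x := 2 * x + 4 * x ^ 3) (by positivity)
  have h3 : 0 ≤ x ^ 3 := by positivity
  have h2 : 1 + 2 * x + 2 * x ^ 2 + 4 * x ^ 3 ≤ Real.exp (2 * x + 4 * x ^ 3) := by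
    nlinarith [mul_nonneg h0 h3, sq_nonneg (x ^ 3)]
  nlinarith [mul_le_mul_of_nonneg_left h2 (show 0 ≤ 1 - x by linarith),
    mul_nonneg h3 (show 0 ≤ 1 - 2 * x by linarith)]

theorem dec_Tail {n : ℕ} (hn : 1 ≤ n) (i : ℕ) (hi : n / 2 ≤ i) : (2 * i - n : ℝ) ≤ n / 2 →
    (n.choose (n / 2) : ℝ) * Real.exp (-((2 * i - n : ℝ) ^ 2 / (2 * n) + (2 * i - n) ^ 4 / n ^ 3))
      ≤ n.choose i := by
  have n0 : (0 : ℝ) < n := by exact_mod_cast hn
  induction i, hi using Nat.le_induction with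
  | base =>
    intro _
    exact mul_le_of_le_one_right (Nat.cast_nonneg _)
      (Real.exp_le_one_iff.2 (neg_nonpos.2 (by positivity)))
  | succ i hi ih =>
    intro h
    push_cast at h ⊢
    have ih' := ih (by linarith)
    have hin : i ≤ n := by
      have : (i : ℝ) ≤ n := by linarith
      exact_mod_cast this
    have hc : (n.choose (i + 1) : ℝ) * (i + 1) = n.choose i * (n - i) := by
      exact_mod_cast Nat.choose_succ_right_eq n i
    have e0 : (0 : ℝ) ≤ 2 * i - n + 1 := by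
      have : n ≤ 2 * i + 1 := by omega
      have : (n : ℝ) ≤ 2 * i + 1 := by exact_mod_cast this
      linarith
    obtain ⟨e, he⟩ : ∃ e : ℝ, e = 2 * i - n + 1 := ⟨_, rfl⟩
    rw [← he] at e0
    obtain ⟨x, hx⟩ : ∃ x : ℝ, x = e / n := ⟨_, rfl⟩
    have x0 : 0 ≤ x := by rw [hx]; positivity
    have xn : x * n = e := by rw [hx]; field_simp
    have x1 : x ≤ 1 / 2 := by rw [hx, div_le_iff₀ n0]; linarith
    have hr := rat_Tail x0 x1
    have hψ : ((2 * i - n : ℝ) ^ 2 / (2 * n) + (2 * i - n) ^ 4 / n ^ 3) + (2 * x + 4 * x ^ 3)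
        ≤ (2 * (i + 1) - n : ℝ) ^ 2 / (2 * n) + (2 * (i + 1) - n) ^ 4 / n ^ 3 := by
      rw [show (2 * i - n : ℝ) = e - 1 by linarith, show (2 * (i + 1) - n : ℝ) = e + 1 by linarith,
        hx, ← sub_nonneg]
      have : (e + 1) ^ 2 / (2 * n) + (e + 1) ^ 4 / n ^ 3 - ((e - 1) ^ 2 / (2 * n)
          + (e - 1) ^ 4 / n ^ 3 + (2 * (e / n) + 4 * (e / n) ^ 3))
          = (4 * e ^ 3 + 8 * e) / n ^ 3 := by
        field_simp; ring
      rw [this]; positivity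
    refine (mul_le_mul_of_nonneg_left (Real.exp_le_exp.2 (neg_le_neg hψ))
      (Nat.cast_nonneg _)).trans ?_
    rw [neg_add _ (2 * x + 4 * x ^ 3), Real.exp_add, ← mul_assoc]
    refine (mul_le_mul_of_nonneg_right ih' (Real.exp_pos _).le).trans ?_
    have hE := Real.exp_pos (2 * x + 4 * x ^ 3)
    rw [Real.exp_neg, ← div_eq_mul_inv, div_le_iff₀ hE]
    have k1 : (i + 1 : ℝ) * (1 - x) ≤ (n - i) * (1 + x) := by nlinarith
    have k2 : (i + 1 : ℝ) ≤ (n - i) * Real.exp (2 * x + 4 * x ^ 3) := by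
      have k0 : (0 : ℝ) ≤ n - i := sub_nonneg.2 (by exact_mod_cast hin)
      refine le_of_mul_le_mul_right (a := 1 - x) ?_ (by linarith)
      linarith [mul_le_mul_of_nonneg_left hr k0]
    have c0 : (0 : ℝ) ≤ n.choose i := Nat.cast_nonneg _
    refine le_of_mul_le_mul_right (a := (i + 1 : ℝ)) ?_ (by positivity)
    rw [mul_right_comm, hc, mul_assoc]
    exact mul_le_mul_of_nonneg_left k2 c0

theorem sTail : STail := by
  intro ν hν
  obtain ⟨κ, hκ⟩ : ∃ κ : ℝ, κ = √(2 * ν) := ⟨_, rfl⟩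
  have κ0 : 0 ≤ κ := hκ ▸ Real.sqrt_nonneg _
  have κ2 : κ ^ 2 = 2 * ν := by rw [hκ, Real.sq_sqrt (by linarith)]
  refine ⟨4 * (κ + 4) ^ 2 + (κ + 4) ^ 4 + 4 * κ + 9, by positivity, fun n lam hC h1 hn => ?_⟩
  have l0 : 0 < lam := by linarith
  have n1 : (1 : ℝ) ≤ n := by nlinarith
  have n1' : 1 ≤ n := by exact_mod_cast n1
  obtain ⟨t, ht⟩ : ∃ t : ℝ, t = √(n / lam) := ⟨_, rfl⟩
  have t0 : 0 ≤ t := ht ▸ Real.sqrt_nonneg _
  have t2 : t ^ 2 * lam = n := by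
    rw [ht, Real.sq_sqrt (by positivity), div_mul_cancel₀ _ l0.ne']
  have t3 : lam ≤ t ^ 2 := le_of_mul_le_mul_right (by linarith) l0
  have t4 : 2 * (κ + 4) ≤ t := by
    refine (pow_le_pow_iff_left₀ (by positivity) t0 two_ne_zero).1 ?_
    linarith [show 0 ≤ (κ + 4) ^ 4 by positivity]
  have hs : √(2 * ν * n * lam) = κ * t * lam := by
    rw [Real.sqrt_eq_iff_mul_self_eq (by positivity) (by positivity), ← κ2, ← t2]
    ring
  rw [hs, E, cnt_Tail n fun y => if κ * t * lam ≤ y then 1 else 0]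
  have s0 : 0 ≤ κ * t * lam := by positivity
  obtain ⟨a, ha⟩ : ∃ a : ℕ, a = ⌈(n + κ * t * lam) / 2⌉₊ := ⟨_, rfl⟩
  obtain ⟨g, hg⟩ : ∃ g : ℕ, g = ⌈t⌉₊ := ⟨_, rfl⟩
  have a1 : (n + κ * t * lam) / 2 ≤ a := ha ▸ Nat.le_ceil _
  have a2 : (a : ℝ) < (n + κ * t * lam) / 2 + 1 := ha ▸ Nat.ceil_lt_add_one (by positivity)
  have g1 : t ≤ g := hg ▸ Nat.le_ceil _
  have g2 : (g : ℝ) < t + 1 := hg ▸ Nat.ceil_lt_add_one t0
  obtain ⟨d, hd⟩ : ∃ d : ℝ, d = t * (κ * lam + 4) := ⟨_, rfl⟩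
  have k1 : κ * lam + 4 ≤ (κ + 4) * lam := by linarith
  have k0 : 0 ≤ κ * lam + 4 := by positivity
  have d1 : d ≤ n / 2 := by
    rw [hd, ← t2]
    linarith [mul_le_mul_of_nonneg_left k1 t0,
      mul_le_mul_of_nonneg_left t4 (mul_nonneg t0 l0.le)]
  have d2 : d ^ 2 / (2 * n) ≤ ν * lam + 4 * κ + 8 := by
    rw [div_le_iff₀ (by positivity), hd, ← t2, mul_pow]
    have : (κ * lam + 4) ^ 2 ≤ (ν * lam + 4 * κ + 8) * (2 * lam) := by
      rw [add_sq, mul_pow, κ2]; linarith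
    linarith [mul_le_mul_of_nonneg_left this (sq_nonneg t)]
  have d3 : d ^ 4 / n ^ 3 ≤ (κ + 4) ^ 4 := by
    rw [div_le_iff₀ (by positivity), hd, ← t2, mul_pow]
    calc t ^ 4 * (κ * lam + 4) ^ 4 ≤ t ^ 4 * ((κ + 4) * lam) ^ 4 := by gcongr
      _ = (κ + 4) ^ 4 * (t ^ 4 * lam ^ 3) * lam := by ring
      _ ≤ (κ + 4) ^ 4 * (t ^ 4 * lam ^ 3) * t ^ 2 := by gcongr
      _ = _ := by ring
  have hw : ∀ i ∈ Ico a (a + g), κ * t * lam ≤ 2 * i - n ∧ (2 * i - n : ℝ) ≤ d := fun i hi => by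
    rw [mem_Ico] at hi
    have i1 : (a : ℝ) ≤ i := by exact_mod_cast hi.1
    have i2 : (i : ℝ) + 1 ≤ a + g := by exact_mod_cast hi.2
    rw [hd]
    constructor <;> linarith
  obtain ⟨A, hA⟩ : ∃ A : ℝ, A = ν * lam + 4 * κ + 8 + (κ + 4) ^ 4 := ⟨_, rfl⟩
  have hterm : ∀ i ∈ Ico a (a + g), (n.choose (n / 2) : ℝ) * Real.exp (-A) ≤
      (n.choose i : ℝ) * if κ * t * lam ≤ 2 * i - n then 1 else 0 := fun i hi => by
    obtain ⟨w1, w2⟩ := hw i hi
    have w0 : (0 : ℝ) ≤ 2 * i - n := s0.trans w1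
    have w3 : n / 2 ≤ i := by
      have : (n : ℝ) ≤ 2 * i := by linarith
      have : n ≤ 2 * i := by exact_mod_cast this
      omega
    rw [if_pos w1, mul_one]
    refine le_trans (mul_le_mul_of_nonneg_left (Real.exp_le_exp.2 (neg_le_neg ?_))
      (Nat.cast_nonneg _)) (dec_Tail n1' i w3 (w2.trans d1))
    have e1 : (2 * i - n : ℝ) ^ 2 / (2 * n) ≤ d ^ 2 / (2 * n) := by gcongr
    have e2 : (2 * i - n : ℝ) ^ 4 / n ^ 3 ≤ d ^ 4 / n ^ 3 := by gcongr
    linarith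
  have hsub : Ico a (a + g) ⊆ range (n + 1) := fun i hi => by
    have : (i : ℝ) ≤ n := by linarith [(hw i hi).2]
    exact mem_range.2 (Nat.lt_succ_of_le (by exact_mod_cast this))
  have hsum := (card_nsmul_le_sum _ _ _ hterm).trans (sum_le_sum_of_subset_of_nonneg hsub
    fun i _ _ => mul_nonneg (Nat.cast_nonneg _) (by split_ifs <;> norm_num))
  rw [Nat.card_Ico, add_tsub_cancel_left, nsmul_eq_mul] at hsum
  refine le_trans ?_ (mul_le_mul_of_nonneg_left hsum (by positivity))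
  have hm := mid'_Tail n1'
  obtain ⟨c, hc⟩ : ∃ c : ℝ, c = (1 / 2 : ℝ) ^ n * n.choose (n / 2) := ⟨_, rfl⟩
  have c0 : 0 ≤ c := by rw [hc]; positivity
  have hsq : 2 * √n ≤ t * (lam + 2) := by
    have : √n ≤ t * (lam + 2) / 2 := by
      rw [Real.sqrt_le_left (by positivity), ← t2]
      linarith [mul_nonneg (sq_nonneg t) (show 0 ≤ lam ^ 2 + 4 by positivity)]
    linarith
  rw [← hc] at hm
  have hgc : 1 ≤ (lam + 2) * (g * c) := by
    linarith [mul_le_mul_of_nonneg_right hsq c0,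
      mul_le_mul_of_nonneg_right g1 (mul_nonneg (show 0 ≤ lam + 2 by linarith) c0)]
  have hL : 1 ≤ Real.log (lam + 2) := by
    rw [Real.le_log_iff_exp_le (by linarith)]
    linarith [Real.exp_one_lt_d9]
  have hx : Real.exp (-(ν * lam) - (4 * (κ + 4) ^ 2 + (κ + 4) ^ 4 + 4 * κ + 9) * Real.log (lam + 2))
      ≤ Real.exp (-A) / (lam + 2) := by
    conv_rhs => rw [← Real.exp_log (show 0 < lam + 2 by linarith), ← Real.exp_sub]
    rw [Real.exp_le_exp, hA]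
    linarith [mul_le_mul_of_nonneg_left hL
      (show 0 ≤ 4 * (κ + 4) ^ 2 + (κ + 4) ^ 4 + 4 * κ + 8 by positivity), sq_nonneg (κ + 4)]
  refine hx.trans ?_
  rw [div_le_iff₀ (by linarith), show (1 / 2 : ℝ) ^ n * (g * (n.choose (n / 2) * Real.exp (-A)))
    * (lam + 2) = (lam + 2) * (g * c) * Real.exp (-A) by rw [hc]; ring]
  exact le_mul_of_one_le_left (Real.exp_pos _).le hgc

end Pool.Agent.MP_ebf981_lc.PL
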