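import Pool.Agent.MP_ebf981_lc.PL.St

/-! The upper bound for the moment from reverse small-set expansion. -/

namespace Pool.Agent.MP_ebf981_lc.PL

open Finset Pool.Agent.MP_ebf981_lc.LN

theorem T_mem_Up {n : ℕ} {ε : ℝ} (h0 : 0 < ε) (h1 : ε < 1 / 2) {b : (Fin n → Bool) → ℝ}
    (hb : ∀ x, 0 ≤ b x ∧ b x ≤ 1) (x : Fin n → Bool) : 0 ≤ T ε b x ∧ T ε b x ≤ 1 := by
  have hk : ∀ y, 0 ≤ ker ε x y := fun y => prod_nonneg fun j _ => by split_ifs <;> linarith
  refine ⟨sum_nonneg fun y _ => mul_nonneg (hk y) (hb y).1, ?_⟩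
  rw [← T_one ε x]
  exact sum_le_sum fun y _ => mul_le_of_le_one_right (hk y) (hb y).2

theorem log_Up {ν l : ℝ} (hν : 0 < ν) (hl : 1 ≤ l) :
    1 ≤ Real.log (l + 2) ∧ Real.log (ν * l + 2) ≤ (Real.log (ν + 1) + 1) * Real.log (l + 2) := by
  have h1 : 1 ≤ Real.log (l + 2) := by
    rw [Real.le_log_iff_exp_le (by linarith)]
    linarith [Real.exp_one_lt_d9]
  have h2 : 0 ≤ Real.log (ν + 1) := Real.log_nonneg (by linarith)
  have h3 : Real.log (ν * l + 2) ≤ Real.log (ν + 1) + Real.log (l + 2) := by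
    rw [← Real.log_mul (by linarith) (by linarith)]
    exact Real.log_le_log (by positivity) (by nlinarith)
  exact ⟨h1, by nlinarith⟩

theorem sUp : SUp := by
  intro ε C h0 h1 hC hR
  have hν := nu_pos h0 h1
  have hp := pp_pos h0 h1
  have hlν : 0 ≤ Real.log (nu ε + 1) := Real.log_nonneg (by linarith)
  obtain ⟨K, hK⟩ : ∃ K, K = nu ε * (1 + C) * (Real.log (nu ε + 1) + 1) := ⟨_, rfl⟩
  have hK0 : 0 ≤ K := by rw [hK]; positivity
  refine ⟨K + 1, by linarith, fun r n b hr hb hE => ?_⟩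
  have hr3 : (3 : ℝ) ≤ r := by exact_mod_cast hr
  have hr0 : (0 : ℝ) < r := by linarith
  have hl : 1 ≤ Real.log r := by
    rw [Real.le_log_iff_exp_le hr0]
    linarith [Real.exp_one_lt_d9]
  obtain ⟨g1, g2⟩ := log_Up hν hl
  obtain ⟨δ, hδ⟩ : ∃ δ, δ = nu ε * Real.log r / r := ⟨_, rfl⟩
  have hνl : 0 < nu ε * Real.log r := by positivity
  have hδ0 : 0 < δ := by rw [hδ]; positivity
  obtain ⟨a, ha⟩ : ∃ a : (Fin n → Bool) → ℝ, a = fun x => if T ε b x ≤ δ then 1 else 0 := ⟨_, rfl⟩
  have ha01 : ∀ x, a x = 0 ∨ a x = 1 := fun x => by rw [ha]; dsimp only; split_ifs <;> simp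
  have s1 : E (fun x => (1 - T ε b x) ^ r) ≤ E a + Real.exp (-(nu ε * Real.log r)) := by
    rw [← E_const (n := n) (Real.exp _), ← E_add]
    refine E_mono fun x => ?_
    obtain ⟨t0, t1⟩ := T_mem_Up h0 h1 hb x
    rw [ha]; dsimp only
    split_ifs with h
    · linarith [pow_le_one₀ (n := r) (sub_nonneg.2 t1) (by linarith : 1 - T ε b x ≤ 1),
        Real.exp_pos (-(nu ε * Real.log r))]
    · rw [zero_add]
      refine (pow_le_pow_left₀ (sub_nonneg.2 t1) (Real.one_sub_le_exp_neg _) r).trans ?_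
      rw [← Real.exp_nat_mul, Real.exp_le_exp]
      have := (div_lt_iff₀ hr0).1 (hδ ▸ not_le.1 h)
      linarith
  have s2 : E a ≤ Real.exp (-(nu ε * Real.log r) + K * Real.log (Real.log r + 2)) := by
    rcases le_or_gt (E a) (Real.exp (-(nu ε * Real.log r))) with h | h
    · exact h.trans (Real.exp_le_exp.2 (le_add_of_nonneg_right (by positivity)))
    have a0 : 0 < E a := (Real.exp_pos _).trans h
    have a1 : E a ≤ 1 := (E_mono fun x => by rcases ha01 x with h | h <;> simp [h]).trans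
      (E_const (n := n) 1).le
    obtain ⟨L, hL⟩ : ∃ L, L = -Real.log (E a) := ⟨_, rfl⟩
    have eL : Real.exp (-L) = E a := by rw [hL, neg_neg, Real.exp_log a0]
    have L0 : 0 ≤ L := by rw [hL]; linarith [Real.log_nonpos a0.le a1]
    have L1 : L ≤ nu ε * Real.log r := by
      rw [← eL, Real.exp_lt_exp] at h; linarith
    have k := hR n a b L ha01 hb L0 eL.le hE
    have k2 : E (fun x => a x * T ε b x) ≤ δ * E a := by
      rw [← E_mul]
      refine E_mono fun x => ?_
      rw [ha]; dsimp only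
      split_ifs with h <;> linarith
    have eδ : δ = Real.exp (Real.log (nu ε * Real.log r) - Real.log r) := by
      rw [Real.exp_sub, Real.exp_log hνl, Real.exp_log hr0, hδ]
    have k3 := k.trans k2
    rw [eδ, ← eL, ← Real.exp_add, Real.exp_le_exp] at k3
    have e1 : nu ε * (L / pp ε) = L + nu ε * L := by
      have : (1 - 2 * ε) ≠ 0 := by linarith
      have e := pp_eq ε
      unfold nu
      field_simp
      linear_combination (-L) * e
    have m1 : Real.log (L + 2) ≤ Real.log (nu ε * Real.log r + 2) :=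
      Real.log_le_log (by linarith) (by linarith)
    have m2 : Real.log (nu ε * Real.log r) ≤ Real.log (nu ε * Real.log r + 2) :=
      Real.log_le_log hνl (by linarith)
    have m3 := mul_le_mul_of_nonneg_left (m1.trans g2) hC
    have m4 := mul_le_mul_of_nonneg_left
      (show -(L / pp ε) + L ≤ (1 + C) * ((Real.log (nu ε + 1) + 1) * Real.log (Real.log r + 2)) -
        Real.log r by linarith) hν.le
    rw [← eL, Real.exp_le_exp, hK]
    linarith
  have s3 : Real.exp (-(nu ε * Real.log r)) ≤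
      Real.exp (-(nu ε * Real.log r) + K * Real.log (Real.log r + 2)) :=
    Real.exp_le_exp.2 (le_add_of_nonneg_right (by positivity))
  rw [add_mul, one_mul, ← add_assoc, Real.exp_add _ (Real.log _), Real.exp_log (by linarith)]
  nlinarith [Real.exp_pos (-(nu ε * Real.log r) + K * Real.log (Real.log r + 2))]

end Pool.Agent.MP_ebf981_lc.PL
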