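import Pool.Agent.MP_ebf981_lc.PL.Tay
import Pool.Agent.MP_ebf981_lc.PL.Drift
import Pool.Agent.MP_ebf981_lc.PL.Exp
import Pool.Agent.MP_ebf981_lc.PL.Step
import Pool.Agent.MP_ebf981_lc.PL.Bell
import Pool.Agent.MP_ebf981_lc.PL.Ind
import Pool.Agent.MP_ebf981_lc.PL.Rsse
import Pool.Agent.MP_ebf981_lc.PL.Up
import Pool.Agent.MP_ebf981_lc.PL.Tail
import Pool.Agent.MP_ebf981_lc.PL.Cher
import Pool.Agent.MP_ebf981_lc.PL.Fin

namespace Pool.Agent.MP_ebf981_lc.PL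

/-- Reverse small-set expansion against a set of measure at least one half. -/
theorem rsse (ε : ℝ) (h0 : 0 < ε) (h1 : ε < 1 / 2) : ∃ C, 0 ≤ C ∧ Rsse ε C := by
  obtain ⟨K, μ, hK, hμ, hμ1, hS⟩ := sStep sDrift sExp ε h0 h1
  obtain ⟨η, S, C, a1, a2, a3, a4, a5, hB⟩ := sBell sTay K μ hK hμ hμ1
  exact sRsse sGF ε η S C h0 h1 a1 a2 a3 a5 (sInd sGF ε K μ η S C h0 h1 a1 a2 a3 a4 a5 hS hB)

end Pool.Agent.MP_ebf981_lc.PL
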