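import Pool.Agent.MP_ebf981_lc.LNMain

/-! Majority is optimal up to a power of `log r`: definitions and statements of the steps. -/

namespace Pool.Agent.MP_ebf981_lc.PL

open Finset Pool.Agent.MP_ebf981_lc.LN

/-- `1 - ρ ^ 2` for `ρ = 1 - 2 ε` -/
def pp (ε : ℝ) : ℝ := 4 * ε * (1 - ε)

/-- the exponent `1 / ρ ^ 2 - 1` -/
noncomputable def nu (ε : ℝ) : ℝ := pp ε / (1 - 2 * ε) ^ 2

/-- the rate of the clock -/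
noncomputable def aa (ε : ℝ) : ℝ := 2 * (1 - 2 * ε) ^ 2 / pp ε

/-- the unnormalised Gaussian integral -/
noncomputable def gF (u : ℝ) : ℝ := ∫ t in (0 : ℝ)..u, Real.exp (-(t ^ 2 / 2))

/-- the potential -/
noncomputable def pot (S e X W : ℝ) : ℝ := gF (X / √W + S / W) - e * W

/-- moment conditions for one step of size `τ` with law `π` and increments `ξ`, `D` -/
structure Mom (K μ τ : ℝ) (π ξ D : Bool × Bool → ℝ) : Prop where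
  t0 : 0 ≤ τ
  t1 : τ ≤ 1
  pos : ∀ i, 0 ≤ π i
  one : ∑ i, π i = 1
  bx : ∀ i, |ξ i| ≤ K * τ
  bd : ∀ i, |D i| ≤ K * τ
  drift : μ * τ ^ 4 ≤ ∑ i, π i * ξ i
  clock : |∑ i, π i * (ξ i ^ 2 + D i)| ≤ K * τ ^ 4
  cross : |∑ i, π i * (ξ i * D i)| ≤ K * τ ^ 3
  down : μ * τ ^ 2 ≤ -∑ i, π i * D i

/-- one coordinate of the tilted coupling; `v` is the bias of the set towards `true` -/
def Step (ε K μ : ℝ) : Prop := ∀ v : ℝ, 0 ≤ v → v ≤ 1 →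
  ∃ (τ : ℝ) (q Δ : Bool → Bool → ℝ) (δ : Bool → ℝ), (∀ y, q y true + q y false = 1) ∧
    (∀ y z, q y z = 0 ∨ (q y z = (if y = z then 1 - ε else ε) * Real.exp (-Δ y z) ∧
      Real.exp (δ z) ≤ 1 + v * sg z)) ∧
    Mom K μ τ (fun i => q i.1 i.2 / 2) (fun i => Δ i.1 i.2 + δ i.2 / pp ε)
      (fun i => aa ε * Δ i.1 i.2)

/-- the potential is a subsolution -/
def Bell (K μ η S C : ℝ) : Prop := ∀ (R X W τ : ℝ) (π ξ D : Bool × Bool → ℝ), 1 ≤ R →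
  (R / η) ^ 2 ≤ W → Mom K μ τ π ξ D → (∀ i, W / 2 ≤ W + D i) ∧
    pot (S * R ^ 3) (C * Real.exp (-(R ^ 2 / 8))) X W ≤
      ∑ i, π i * pot (S * R ^ 3) (C * Real.exp (-(R ^ 2 / 8))) (X + ξ i) (W + D i)

/-- the lower bound that is proved by induction on the dimension -/
def Ind (ε η S C : ℝ) : Prop := ∀ R : ℝ, 1 ≤ R → ∀ (n : ℕ) (a b : (Fin n → Bool) → ℝ) (c l : ℝ),
  (∀ x, a x = 0 ∨ a x = 1) → (∀ x, 0 ≤ b x ∧ b x ≤ 1) → Real.exp (-l) ≤ E a →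
  (R / η) ^ 2 / 2 ≤ aa ε * c →
  Real.exp (-c) * ((gF R + pot (S * R ^ 3) (C * Real.exp (-(R ^ 2 / 8)))
      (c - l / pp ε - ((R / η) ^ 2 / aa ε + 3 * R * (R / η))) (aa ε * c)) /
      (2 * (gF R + Real.exp (-(R ^ 2 / 2)))) - (1 - E b)) ≤ E fun x => a x * T ε b x

/-- reverse small-set expansion against a set of measure at least one half -/
def Rsse (ε C : ℝ) : Prop := ∀ (n : ℕ) (a b : (Fin n → Bool) → ℝ) (L : ℝ),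
  (∀ x, a x = 0 ∨ a x = 1) → (∀ x, 0 ≤ b x ∧ b x ≤ 1) → 0 ≤ L → Real.exp (-L) ≤ E a →
  1 / 2 ≤ E b → Real.exp (-(L / pp ε) - C * Real.log (L + 2)) ≤ E fun x => a x * T ε b x

def STay : Prop := ∀ u h : ℝ, gF u + Real.exp (-(u ^ 2 / 2)) *
  (h - u * h ^ 2 / 2 - |h| ^ 3 * (1 + (|u| + |h|) ^ 2) * Real.exp (|u| * |h|)) ≤ gF (u + h)

def SGF : Prop := Monotone gF ∧ (∀ u, gF (-u) = -gF u) ∧
  (∀ R u, 1 ≤ R → gF u ≤ gF R + Real.exp (-(R ^ 2 / 2))) ∧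
  (∀ R, 1 ≤ R → gF R + Real.exp (-(R ^ 2 / 2)) ≤ 2) ∧ ∀ u, 0 ≤ u → u ≤ 1 → u / 2 ≤ gF u

/-- the drift of the tilted step -/
def SDrift : Prop := ∀ p θ₀ : ℝ, 0 < p → p < 1 → ∃ μ : ℝ, 0 < μ ∧ ∀ θ, 0 ≤ θ → θ ≤ θ₀ →
  μ * θ ^ 4 ≤ Real.log (1 + p * Real.sinh θ ^ 2) / 2 - Real.log (Real.cosh (p * θ)) / p

/-- expansions for the tilted step; `ρ` has either sign -/
def SExp : Prop := ∀ ρ θ : ℝ, |ρ| < 1 → 0 ≤ θ →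
  |Real.log (Real.cosh θ + ρ * Real.sinh θ)| ≤ θ ∧
  |Real.log (Real.cosh θ + ρ * Real.sinh θ) -
    Real.log (Real.cosh ((1 - ρ ^ 2) * θ)) / (1 - ρ ^ 2)| ≤ 2 * θ ∧
  |Real.log (Real.cosh θ + ρ * Real.sinh θ) -
    Real.log (Real.cosh ((1 - ρ ^ 2) * θ)) / (1 - ρ ^ 2) - ρ * θ| ≤ 3 * θ ^ 3 ∧
  |Real.log (Real.cosh θ + ρ * Real.sinh θ) -
    θ * ((Real.sinh θ + ρ * Real.cosh θ) / (Real.cosh θ + ρ * Real.sinh θ))| ≤ θ ^ 2 ∧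
  Real.log (Real.cosh θ + ρ * Real.sinh θ) -
    θ * ((Real.sinh θ + ρ * Real.cosh θ) / (Real.cosh θ + ρ * Real.sinh θ)) ≤
      -((1 - ρ ^ 2) * Real.exp (-(2 * θ)) / 2 * θ ^ 2) ∧
  |(Real.log (Real.cosh θ + ρ * Real.sinh θ) -
      θ * ((Real.sinh θ + ρ * Real.cosh θ) / (Real.cosh θ + ρ * Real.sinh θ))) +
    (Real.log (Real.cosh θ - ρ * Real.sinh θ) -
      θ * ((Real.sinh θ - ρ * Real.cosh θ) / (Real.cosh θ - ρ * Real.sinh θ))) +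
    (1 - ρ ^ 2) * θ ^ 2| ≤ 8 * θ ^ 4

def SStep : Prop := ∀ ε : ℝ, 0 < ε → ε < 1 / 2 → ∃ K μ : ℝ, 1 ≤ K ∧ 0 < μ ∧ μ ≤ 1 ∧ Step ε K μ

def SBell : Prop := ∀ K μ : ℝ, 1 ≤ K → 0 < μ → μ ≤ 1 → ∃ η S C : ℝ, 0 < η ∧ η ≤ 1 ∧ 0 ≤ S ∧
  S * η ^ 2 ≤ 1 ∧ 0 ≤ C ∧ Bell K μ η S C

def SInd : Prop := ∀ ε K μ η S C : ℝ, 0 < ε → ε < 1 / 2 → 0 < η → η ≤ 1 → 0 ≤ S →
  S * η ^ 2 ≤ 1 → 0 ≤ C → Step ε K μ → Bell K μ η S C → Ind ε η S C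

def SRsse : Prop := ∀ ε η S C : ℝ, 0 < ε → ε < 1 / 2 → 0 < η → η ≤ 1 → 0 ≤ S → 0 ≤ C →
  Ind ε η S C → ∃ C', 0 ≤ C' ∧ Rsse ε C'

def SUp : Prop := ∀ ε C : ℝ, 0 < ε → ε < 1 / 2 → 0 ≤ C → Rsse ε C → ∃ C' : ℝ, 0 ≤ C' ∧
  ∀ (r n : ℕ) (b : (Fin n → Bool) → ℝ), 3 ≤ r → (∀ x, 0 ≤ b x ∧ b x ≤ 1) → 1 / 2 ≤ E b →
    E (fun x => (1 - T ε b x) ^ r) ≤
      Real.exp (-(nu ε * Real.log r) + C' * Real.log (Real.log r + 2))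

/-- lower bound for the binomial tail -/
def STail : Prop := ∀ ν : ℝ, 0 < ν → ∃ C : ℝ, 0 ≤ C ∧ ∀ (n : ℕ) (lam : ℝ), C ≤ lam → 1 ≤ lam →
  lam ^ 2 ≤ n → Real.exp (-(ν * lam) - C * Real.log (lam + 2)) ≤
    E fun x : Fin n → Bool => if √(2 * ν * n * lam) ≤ ∑ j, sg (x j) then 1 else 0

/-- Chernoff bound for the noise -/
def SCher : Prop := ∀ ε : ℝ, 0 < ε → ε < 1 / 2 → ∀ (n : ℕ) (lam : ℝ) (x : Fin n → Bool),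
  4 / pp ε ≤ lam → lam ^ 2 ≤ n → √(2 * nu ε * n * lam) ≤ ∑ j, sg (x j) →
    T ε (fun y => if ∑ j, sg (y j) ≤ 0 then 1 else 0) x ≤ Real.exp (4 / pp ε ^ 2 - lam)

theorem pp_pos {ε : ℝ} (h0 : 0 < ε) (h1 : ε < 1 / 2) : 0 < pp ε := by
  unfold pp; nlinarith

theorem pp_eq (ε : ℝ) : pp ε = 1 - (1 - 2 * ε) ^ 2 := by unfold pp; ring

theorem pp_lt {ε : ℝ} (h1 : ε < 1 / 2) : pp ε < 1 := by
  rw [pp_eq]; nlinarith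

theorem aa_pos {ε : ℝ} (h0 : 0 < ε) (h1 : ε < 1 / 2) : 0 < aa ε :=
  div_pos (by nlinarith) (pp_pos h0 h1)

theorem nu_pos {ε : ℝ} (h0 : 0 < ε) (h1 : ε < 1 / 2) : 0 < nu ε :=
  div_pos (pp_pos h0 h1) (by nlinarith)

end Pool.Agent.MP_ebf981_lc.PL
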