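import Pool.Agent.MP_ebf981_lc.PL.St

namespace Pool.Agent.MP_ebf981_lc.PL

open Finset Pool.Agent.MP_ebf981_lc.LN

theorem cont_Tay : Continuous fun t : ℝ => Real.exp (-(t ^ 2 / 2)) := by fun_prop

theorem der_Tay (u : ℝ) : HasDerivAt gF (Real.exp (-(u ^ 2 / 2))) u :=
  (cont_Tay.integral_hasStrictDerivAt 0 u).hasDerivAt

theorem exp_Tay {y B : ℝ} (hB : 0 ≤ B) (h : y ≤ B) :
    0 ≤ Real.exp y - 1 - y ∧ Real.exp y - 1 - y ≤ y ^ 2 * Real.exp B := by
  refine ⟨by linarith [Real.add_one_le_exp y], ?_⟩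
  have e1 : Real.exp y * Real.exp (-y) = 1 := by rw [← Real.exp_add]; simp
  have e2 := Real.add_one_le_exp (-y)
  have e3 := Real.exp_pos y
  have e4 : Real.exp y * (-y + 1) ≤ 1 := (mul_le_mul_of_nonneg_left e2 e3.le).trans_eq e1
  have e5 : 1 ≤ Real.exp B := Real.one_le_exp hB
  rcases le_total 0 y with c | c
  · have a1 : Real.exp y ≤ Real.exp B := Real.exp_le_exp.2 h
    have a2 : y * (Real.exp y - 1) ≤ y * (y * Real.exp y) :=
      mul_le_mul_of_nonneg_left (by linarith) c
    have a3 : y ^ 2 * Real.exp y ≤ y ^ 2 * Real.exp B := mul_le_mul_of_nonneg_left a1 (sq_nonneg y)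
    nlinarith
  · have a1 : Real.exp y ≤ 1 + y + y ^ 2 := by
      have b1 : 0 < -y + 1 := by linarith
      refine le_of_mul_le_mul_right (e4.trans ?_) b1
      nlinarith [mul_nonneg (sq_nonneg y) (neg_nonneg.2 c)]
    have a3 : y ^ 2 * 1 ≤ y ^ 2 * Real.exp B := mul_le_mul_of_nonneg_left e5 (sq_nonneg y)
    linarith

theorem sTay : STay := by
  intro u h
  have hd : ∀ t, HasDerivAt (fun t => gF (u + t) - Real.exp (-(u ^ 2 / 2)) * (t - u * t ^ 2 / 2))
      (Real.exp (-((u + t) ^ 2 / 2)) - Real.exp (-(u ^ 2 / 2)) * (1 - u * t)) t := fun t => by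
    have a1 := (der_Tay (u + t)).comp_const_add u t
    have a2 : HasDerivAt (fun t : ℝ => t - u * t ^ 2 / 2) (1 - u * t) t := by
      have := (hasDerivAt_id' t).sub ((((hasDerivAt_id' t).fun_pow 2).const_mul u).div_const 2)
      exact this.congr_deriv (by simp; ring)
    exact a1.sub (a2.const_mul _)
  have hb : ∀ t ∈ Set.uIcc 0 h,
      ‖Real.exp (-((u + t) ^ 2 / 2)) - Real.exp (-(u ^ 2 / 2)) * (1 - u * t)‖ ≤
        Real.exp (-(u ^ 2 / 2)) * (|h| ^ 2 * (1 + (|u| + |h|) ^ 2) * Real.exp (|u| * |h|)) := by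
    intro t ht
    have t1 : |t| ≤ |h| := by simpa using Set.abs_sub_left_of_mem_uIcc ht
    have t0 := abs_nonneg t
    have u0 := abs_nonneg u
    have h0 := abs_nonneg h
    have ut : |u * t| ≤ |u| * |h| := by rw [abs_mul]; exact mul_le_mul_of_nonneg_left t1 u0
    have tt : t ^ 2 ≤ |h| ^ 2 := by rw [← sq_abs t]; exact pow_le_pow_left₀ t0 t1 2
    have ut' := abs_le.1 ut
    have t2 := sq_nonneg t
    obtain ⟨y1, y2⟩ := exp_Tay (y := -(u * t) - t ^ 2 / 2) (B := |u| * |h|) (by positivity)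
      (by linarith [ut'.1])
    have y3 : (-(u * t) - t ^ 2 / 2) ^ 2 ≤ (|h| * (|u| + |h|)) ^ 2 :=
      sq_le_sq' (by nlinarith [ut'.2]) (by nlinarith [ut'.1])
    have e : Real.exp (-((u + t) ^ 2 / 2)) - Real.exp (-(u ^ 2 / 2)) * (1 - u * t) =
        Real.exp (-(u ^ 2 / 2)) * (Real.exp (-(u * t) - t ^ 2 / 2) - 1 + u * t) := by
      rw [show -((u + t) ^ 2 / 2) = -(u ^ 2 / 2) + (-(u * t) - t ^ 2 / 2) by ring, Real.exp_add]
      ring
    rw [e, norm_mul, Real.norm_of_nonneg (Real.exp_pos _).le, Real.norm_eq_abs]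
    refine mul_le_mul_of_nonneg_left ?_ (Real.exp_pos _).le
    have e5 : 1 ≤ Real.exp (|u| * |h|) := Real.one_le_exp (by positivity)
    have a1 : (-(u * t) - t ^ 2 / 2) ^ 2 * Real.exp (|u| * |h|) ≤
        (|h| * (|u| + |h|)) ^ 2 * Real.exp (|u| * |h|) :=
      mul_le_mul_of_nonneg_right y3 (Real.exp_pos _).le
    have a2 : |h| ^ 2 * 1 ≤ |h| ^ 2 * Real.exp (|u| * |h|) :=
      mul_le_mul_of_nonneg_left e5 (by positivity)
    have a3 : 0 ≤ (|h| * (|u| + |h|)) ^ 2 * Real.exp (|u| * |h|) := by positivity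
    have a4 : |h| ^ 2 * (1 + (|u| + |h|) ^ 2) * Real.exp (|u| * |h|) =
        |h| ^ 2 * Real.exp (|u| * |h|) + (|h| * (|u| + |h|)) ^ 2 * Real.exp (|u| * |h|) := by ring
    rw [a4, abs_le]
    constructor <;> linarith
  have m := (convex_uIcc (0 : ℝ) h).norm_image_sub_le_of_norm_hasDerivWithin_le
    (fun t _ => (hd t).hasDerivWithinAt) hb Set.left_mem_uIcc Set.right_mem_uIcc
  rw [Real.norm_eq_abs, Real.norm_eq_abs, sub_zero h] at m
  have m1 := (abs_le.1 m).1
  simp only [add_zero] at m1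
  nlinarith [m1]

theorem sGF : SGF := by
  have df : Differentiable ℝ gF := fun u => (der_Tay u).differentiableAt
  have mono : Monotone gF := monotone_of_deriv_nonneg df fun u => by
    rw [(der_Tay u).deriv]; positivity
  have hd : ∀ u, HasDerivAt (fun u => gF u + Real.exp (-(u ^ 2 / 2)))
      (Real.exp (-(u ^ 2 / 2)) * (1 - u)) u := fun u => by
    have a2 := ((((hasDerivAt_id' u).fun_pow 2).div_const 2).fun_neg).exp
    exact ((der_Tay u).add a2).congr_deriv (by simp; ring)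
  have anti : AntitoneOn (fun u => gF u + Real.exp (-(u ^ 2 / 2))) (Set.Ici 1) :=
    antitoneOn_of_deriv_nonpos (convex_Ici 1)
      (fun u _ => (hd u).continuousAt.continuousWithinAt)
      (fun u _ => (hd u).differentiableAt.differentiableWithinAt) fun u hu => by
        rw [(hd u).deriv]
        rw [interior_Ici] at hu
        exact mul_nonpos_of_nonneg_of_nonpos (Real.exp_pos _).le (by linarith [hu.out])
  refine ⟨mono, fun u => ?_, fun R u hR => ?_, fun R hR => ?_, fun u h0 h1 => ?_⟩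
  · have := intervalIntegral.integral_comp_neg (a := 0) (b := u)
      (fun t : ℝ => Real.exp (-(t ^ 2 / 2)))
    simp only [neg_sq, neg_zero] at this
    unfold gF
    rw [this, intervalIntegral.integral_symm]
  · rcases le_total u R with c | c
    · linarith [mono c, Real.exp_pos (-(R ^ 2 / 2))]
    · have := anti hR (hR.trans c) c
      simp only at this
      linarith [Real.exp_pos (-(u ^ 2 / 2))]
  · have a1 := anti (Set.mem_Ici.2 le_rfl) hR hR
    simp only at a1
    have a2 : Real.exp (-((1 : ℝ) ^ 2 / 2)) ≤ 1 := Real.exp_le_one_iff.2 (by norm_num)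
    have a3 : gF 1 ≤ ∫ _ in (0 : ℝ)..1, (1 : ℝ) :=
      intervalIntegral.integral_mono_on zero_le_one (cont_Tay.intervalIntegrable _ _)
        intervalIntegrable_const fun t _ => Real.exp_le_one_iff.2 (by nlinarith [sq_nonneg t])
    simp only [intervalIntegral.integral_const, sub_zero, smul_eq_mul, mul_one] at a3
    linarith
  · have a3 : ∫ _ in (0 : ℝ)..u, (1 / 2 : ℝ) ≤ gF u :=
      intervalIntegral.integral_mono_on h0 intervalIntegrable_const
        (cont_Tay.intervalIntegrable _ _) fun t ht => by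
          have := Real.add_one_le_exp (-(t ^ 2 / 2))
          nlinarith [ht.1, ht.2]
    simp only [intervalIntegral.integral_const, sub_zero, smul_eq_mul] at a3
    linarith

end Pool.Agent.MP_ebf981_lc.PL
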